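import Pool.Agent.Lib.MP_25e40f_pr.T.Off

/-!
# Stream T, job Ein: the edge sets `ein D`, `touch S` of a graph (about 130 lines)

`mem_ein`: unfold, `Finset.mem_biUnion`, `Finset.mem_image`, `Finset.mem_inter`, `Sym2.eq_iff`, `G.symm`.  `mem_touch` the same.  The set identities: `ext e`, `Sym2.ind`, membership (`mem_off`).
`Conn_mem_ein`: `Conn_mem_VV`, `mem_VV`, `mem_ein`.
`Lam_mono`: `monotone_nat_of_le_succ`; `exists_Lam`: `Finset.induction_on`, `cover`, `Lam_mono`.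
`Cl_subset_ein`: `Conn_mem_ein'`.  `conn_touch`: `Conn_closed` ideas: if `Cl ω F ⊆ S` then `Conn ω f y ↔ Conn (ω ∩ touch S) f y` for `f ∈ F` (`ω ⊆ ein D`): `Conn_of_closed` of A/Cnn with `E₁ = touch S`: an edge `s(a, b) ∈ ω` with `a ∈ S` is in
`touch S` (`b ∈ nb a` as `ω ⊆ ein D`).
-/

set_option autoImplicit false

noncomputable section

open Finset
open scoped Classical

namespace IPC.T

variable {V : Type} [DecidableEq V] (G : PG V)

private theorem ein_sub {ω ω' : Finset (Sym2 V)} (h : ∀ a b, s(a, b) ∈ ω → s(a, b) ∈ ω') :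
    ω ⊆ ω' := by
  intro e
  induction e using Sym2.ind with
  | _ a b => exact h a b

private theorem ein_ext {ω ω' : Finset (Sym2 V)} (h : ∀ a b, s(a, b) ∈ ω ↔ s(a, b) ∈ ω') :
    ω = ω' :=
  Finset.Subset.antisymm (ein_sub fun a b => (h a b).1) (ein_sub fun a b => (h a b).2)

theorem nb_comm {a b : V} : a ∈ G.nb b ↔ b ∈ G.nb a := ⟨G.symm b a, G.symm a b⟩

theorem mem_ein {D : Finset V} {a b : V} : s(a, b) ∈ G.ein D ↔ b ∈ G.nb a ∧ a ∈ D ∧ b ∈ D := by
  unfold PG.ein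
  rw [Finset.mem_biUnion]
  constructor
  · rintro ⟨c, hc, h⟩
    rw [Finset.mem_image] at h
    obtain ⟨d, hd, he⟩ := h
    rw [Finset.mem_inter] at hd
    rw [Sym2.eq_iff] at he
    rcases he with ⟨rfl, rfl⟩ | ⟨rfl, rfl⟩
    · exact ⟨hd.1, hc, hd.2⟩
    · exact ⟨G.symm _ _ hd.1, hd.2, hc⟩
  · rintro ⟨h1, h2, h3⟩
    exact ⟨a, h2, Finset.mem_image.2 ⟨b, Finset.mem_inter.2 ⟨h1, h3⟩, rfl⟩⟩

theorem mem_touch {S : Finset V} {a b : V} :
    s(a, b) ∈ G.touch S ↔ b ∈ G.nb a ∧ (a ∈ S ∨ b ∈ S) := by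
  unfold PG.touch
  rw [Finset.mem_biUnion]
  constructor
  · rintro ⟨c, hc, h⟩
    rw [Finset.mem_image] at h
    obtain ⟨d, hd, he⟩ := h
    rw [Sym2.eq_iff] at he
    rcases he with ⟨rfl, rfl⟩ | ⟨rfl, rfl⟩
    · exact ⟨hd, Or.inl hc⟩
    · exact ⟨G.symm _ _ hd, Or.inr hc⟩
  · rintro ⟨h1, h2 | h2⟩
    · exact ⟨a, h2, Finset.mem_image.2 ⟨b, h1, rfl⟩⟩
    · exact ⟨b, h2, Finset.mem_image.2 ⟨a, G.symm _ _ h1, Sym2.eq_swap⟩⟩

theorem ein_mono {D D' : Finset V} (h : D ⊆ D') : G.ein D ⊆ G.ein D' := by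
  apply ein_sub
  intro a b hab
  rw [mem_ein] at hab ⊢
  exact ⟨hab.1, h hab.2.1, h hab.2.2⟩

theorem touch_mono {S S' : Finset V} (h : S ⊆ S') : G.touch S ⊆ G.touch S' := by
  apply ein_sub
  intro a b hab
  rw [mem_touch] at hab ⊢
  exact ⟨hab.1, hab.2.imp (fun x => h x) (fun x => h x)⟩

theorem ein_subset_touch (D : Finset V) : G.ein D ⊆ G.touch D := by
  apply ein_sub
  intro a b hab
  rw [mem_ein] at hab
  rw [mem_touch]
  exact ⟨hab.1, Or.inl hab.2.1⟩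

theorem ein_inter (D D' : Finset V) : G.ein D ∩ G.ein D' = G.ein (D ∩ D') := by
  apply ein_ext
  intro a b
  rw [Finset.mem_inter, mem_ein, mem_ein, mem_ein, Finset.mem_inter, Finset.mem_inter]
  tauto

/-- edges of `ein D` outside of `S` -/
theorem off_ein (D : Finset V) (S : Finset V) : off (G.ein D) (S : Set V) = G.ein (D \ S) := by
  apply ein_ext
  intro a b
  rw [mem_off, mem_ein, mem_ein, Finset.mem_sdiff, Finset.mem_sdiff, Finset.mem_coe, Finset.mem_coe]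
  tauto

theorem off_ein_set (D : Finset V) (A : Set V) :
    off (G.ein D) A = G.ein (D.filter fun a => a ∉ A) := by
  apply ein_ext
  intro a b
  rw [mem_off, mem_ein, mem_ein, Finset.mem_filter, Finset.mem_filter]
  tauto

theorem disjoint_touch_off (D S : Finset V) : Disjoint (G.touch S) (G.ein (D \ S)) := by
  rw [Finset.disjoint_left]
  intro e
  induction e using Sym2.ind with
  | _ a b =>
    rw [mem_touch, mem_ein, Finset.mem_sdiff, Finset.mem_sdiff]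
    tauto

theorem ein_eq_union (D S : Finset V) :
    G.ein D = (G.ein D ∩ G.touch S) ∪ G.ein (D \ S) := by
  apply ein_ext
  intro a b
  rw [Finset.mem_union, Finset.mem_inter, mem_touch, mem_ein, mem_ein, Finset.mem_sdiff,
    Finset.mem_sdiff]
  tauto

theorem touch_subset_ein {S D : Finset V} (h : S ⊆ D) (hn : ∀ a ∈ S, G.nb a ⊆ D) :
    G.touch S ⊆ G.ein D := by
  apply ein_sub
  intro a b hab
  rw [mem_touch] at hab
  rw [mem_ein]
  rcases hab.2 with h1 | h1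
  · exact ⟨hab.1, h h1, hn a h1 hab.1⟩
  · exact ⟨hab.1, hn b h1 (G.symm _ _ hab.1), h h1⟩

theorem touch_subset_ein_Lam {S : Finset V} {r : ℕ} (h : S ⊆ G.Lam r) :
    G.touch S ⊆ G.ein (G.Lam (r + 1)) :=
  touch_subset_ein G (h.trans (G.mono r)) fun a ha => G.step r a (h ha)

theorem Conn_mem_ein {D : Finset V} {ω : Finset (Sym2 V)} (hω : ω ⊆ G.ein D) {x y : V}
    (h : Conn ω x y) (hne : x ≠ y) : x ∈ D ∧ y ∈ D := by
  obtain ⟨h1, h2⟩ := Conn_mem_VV h hne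
  rw [mem_VV] at h1 h2
  obtain ⟨z, hz⟩ := h1
  obtain ⟨w, hw⟩ := h2
  exact ⟨((mem_ein G).1 (hω hz)).2.1, ((mem_ein G).1 (hω hw)).2.1⟩

theorem Conn_mem_ein' {D : Finset V} {ω : Finset (Sym2 V)} (hω : ω ⊆ G.ein D) {x y : V}
    (h : Conn ω x y) (hx : x ∈ D) : y ∈ D := by
  by_cases hne : x = y
  · rw [← hne]
    exact hx
  · exact (Conn_mem_ein G hω h hne).2

theorem filter_inside {D S : Finset V} {ω : Finset (Sym2 V)} (hω : ω ⊆ G.ein D) :
    (ω.filter fun e => ∀ a ∈ e, a ∈ S) = ω ∩ G.ein S := by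
  apply ein_ext
  intro a b
  rw [Finset.mem_filter, Finset.mem_inter, mem_ein]
  constructor
  · rintro ⟨h1, h2⟩
    exact ⟨h1, ((mem_ein G).1 (hω h1)).1, h2 a (Sym2.mem_mk_left _ _), h2 b (Sym2.mem_mk_right _ _)⟩
  · rintro ⟨h1, _, h3, h4⟩
    refine ⟨h1, fun c hc => ?_⟩
    rcases Sym2.mem_iff.1 hc with rfl | rfl
    · exact h3
    · exact h4

theorem Cl_subset_ein {D : Finset V} {ω : Finset (Sym2 V)} (hω : ω ⊆ G.ein D) {F : Finset V}
    (hF : F ⊆ D) : Cl ω F ⊆ (D : Set V) := by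
  rintro y ⟨f, hf, h⟩
  exact Finset.mem_coe.2 (Conn_mem_ein' G hω h (hF hf))

/-- a connection from `F` only uses the edges touching the cluster -/
theorem conn_touch {D : Finset V} {ω : Finset (Sym2 V)} (hω : ω ⊆ G.ein D) {F S : Finset V}
    (hS : Cl ω F ⊆ (S : Set V)) {f y : V} (hf : f ∈ F) :
    Conn ω f y ↔ Conn (ω ∩ G.touch S) f y := by
  apply Conn_of_closed
  intro a b h hab
  rw [mem_touch]
  refine ⟨((mem_ein G).1 (hω hab)).1, Or.inl ?_⟩
  exact Finset.mem_coe.1 (hS ⟨f, hf, Conn_mono Finset.inter_subset_left h⟩)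

theorem Lam_mono {r s : ℕ} (h : r ≤ s) : G.Lam r ⊆ G.Lam s :=
  monotone_nat_of_le_succ (f := G.Lam) G.mono h

theorem exists_Lam (D : Finset V) : ∃ r, D ⊆ G.Lam r := by
  induction D using Finset.induction_on with
  | empty => exact ⟨0, Finset.empty_subset _⟩
  | insert a D _ ih =>
    obtain ⟨r, hr⟩ := ih
    obtain ⟨r', hr'⟩ := G.cover a
    refine ⟨max r r', Finset.insert_subset (Lam_mono G (le_max_right _ _) hr') ?_⟩
    exact hr.trans (Lam_mono G (le_max_left _ _))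

end IPC.T
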