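import Pool.Agent.Lib.MP_25e40f_pr.T.Ein
import Pool.Agent.Lib.MP_25e40f_pr.A.Har

/-!
# Stream T, job Sp: increasing limits along the exhaustion (about 130 lines)

`sp G p A = ⨆ r, Pr p (ein (Lam r)) A` for increasing `A`: a bounded nondecreasing sequence for `0 ≤ p ≤ 1` (`Pr_le_one`, `Lam_mono`, `ein_mono`, `Pr_mono_E`).
`sp_tendsto`: `tendsto_atTop_ciSup`.  `Pr_le_sp`: `exists_Lam D`, `Pr_mono_E`, `le_ciSup`.  `sp_le_of`: `ciSup_le`.  `lt_sp`: `exists_lt_of_lt_ciSup`.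
`sp_mono`: `ciSup_mono`.  `sp_mono_p`: `ciSup_mono`, `Pr_mono_p`.
`sp_leftcont`: nondecreasing in `p`, and for `a < sp p0 A` some `r` has `a < Pr p0 (ein (Lam r)) A`, by continuity (`Pr_continuous`) `a < Pr p (ein (Lam r)) A ≤ sp p A` for `p` near `p0`; `p ≤ p0` gives `sp p ≤ sp p0`  (`tendsto_order.2`).
`sp_harris`: limits of `harris` (`le_of_tendsto_of_tendsto'`, `Tendsto.mul`).  `sp_or`: `Pr_or_le`, limits.  `sp_exists`: `Pr_exists_le`, limits of finite sums.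
`sp_true`: `Pr_true`, `ciSup_const`.
-/

set_option autoImplicit false

noncomputable section

open Finset
open scoped Classical

namespace IPC.T

variable {V : Type} [DecidableEq V] (G : PG V)

/-- infinite volume probability of an increasing event with finite witnesses -/
def sp (p : ℝ) (A : Finset (Sym2 V) → Prop) : ℝ := ⨆ r, Pr p (G.ein (G.Lam r)) A

private theorem Sp_bdd {p : ℝ} (h0 : 0 ≤ p) (h1 : p ≤ 1) (A : Finset (Sym2 V) → Prop) :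
    BddAbove (Set.range fun r => Pr p (G.ein (G.Lam r)) A) :=
  ⟨1, by
    rintro _ ⟨r, rfl⟩
    exact Pr_le_one h0 h1 _ _⟩

theorem sp_tendsto {p : ℝ} (h0 : 0 ≤ p) (h1 : p ≤ 1) {A : Finset (Sym2 V) → Prop} (hA : Inc A) :
    Filter.Tendsto (fun r => Pr p (G.ein (G.Lam r)) A) Filter.atTop (nhds (sp G p A)) := by
  refine tendsto_atTop_ciSup ?_ (Sp_bdd G h0 h1 A)
  intro r s h
  exact Pr_mono_E h0 h1 (ein_mono G (Lam_mono G h)) hA

theorem Pr_le_sp {p : ℝ} (h0 : 0 ≤ p) (h1 : p ≤ 1) {A : Finset (Sym2 V) → Prop} (hA : Inc A)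
    (D : Finset V) : Pr p (G.ein D) A ≤ sp G p A := by
  obtain ⟨r, hr⟩ := exists_Lam G D
  exact (Pr_mono_E h0 h1 (ein_mono G hr) hA).trans (le_ciSup (Sp_bdd G h0 h1 A) r)

theorem sp_le_of {p c : ℝ} {A : Finset (Sym2 V) → Prop} (h : ∀ D : Finset V, Pr p (G.ein D) A ≤ c) :
    sp G p A ≤ c := by
  exact ciSup_le fun r => h (G.Lam r)

theorem exists_lt_Pr {p c : ℝ} {A : Finset (Sym2 V) → Prop} (h : c < sp G p A) :
    ∃ r, c < Pr p (G.ein (G.Lam r)) A := by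
  exact exists_lt_of_lt_ciSup h

theorem sp_nonneg {p : ℝ} (h0 : 0 ≤ p) (h1 : p ≤ 1) (A : Finset (Sym2 V) → Prop) :
    0 ≤ sp G p A := by
  exact le_ciSup_of_le (Sp_bdd G h0 h1 A) 0 (Pr_nonneg h0 h1 _ _)

theorem sp_le_one {p : ℝ} (h0 : 0 ≤ p) (h1 : p ≤ 1) (A : Finset (Sym2 V) → Prop) :
    sp G p A ≤ 1 := by
  exact ciSup_le fun r => Pr_le_one h0 h1 _ _

theorem sp_mono {p : ℝ} (h0 : 0 ≤ p) (h1 : p ≤ 1) {A B : Finset (Sym2 V) → Prop}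
    (h : ∀ ω, A ω → B ω) : sp G p A ≤ sp G p B := by
  exact ciSup_mono (Sp_bdd G h0 h1 B) fun r => Pr_mono h0 h1 _ fun ω _ => h ω

theorem sp_congr (p : ℝ) {A B : Finset (Sym2 V) → Prop} (h : ∀ ω, A ω ↔ B ω) :
    sp G p A = sp G p B := by
  have h1 : A = B := funext fun ω => propext (h ω)
  rw [h1]

theorem sp_true (p : ℝ) {A : Finset (Sym2 V) → Prop} (h : ∀ ω, A ω) : sp G p A = 1 := by
  have h1 : (fun r => Pr p (G.ein (G.Lam r)) A) = fun _ => (1 : ℝ) :=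
    funext fun r => Pr_true p _ fun ω _ => h ω
  unfold sp
  rw [h1, ciSup_const]

theorem sp_mono_p {p q : ℝ} (h0 : 0 ≤ p) (hpq : p ≤ q) (h1 : q ≤ 1) {A : Finset (Sym2 V) → Prop}
    (hA : Inc A) : sp G p A ≤ sp G q A := by
  exact ciSup_mono (Sp_bdd G (h0.trans hpq) h1 A) fun r => Pr_mono_p h0 hpq h1 _ hA

theorem sp_leftcont {p0 : ℝ} (h0 : 0 < p0) (h1 : p0 ≤ 1) {A : Finset (Sym2 V) → Prop} (hA : Inc A) :
    Filter.Tendsto (fun p => sp G p A) (nhdsWithin p0 (Set.Iio p0)) (nhds (sp G p0 A)) := by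
  have hI : Set.Ioo 0 p0 ∈ nhdsWithin p0 (Set.Iio p0) := Ioo_mem_nhdsLT h0
  refine tendsto_order.2 ⟨fun a ha => ?_, fun b hb => ?_⟩
  · obtain ⟨r, hr⟩ := exists_lt_Pr G ha
    have h2 : ∀ᶠ p in nhds p0, a < Pr p (G.ein (G.Lam r)) A :=
      (Pr_continuous (G.ein (G.Lam r)) A).continuousAt.eventually (lt_mem_nhds hr)
    filter_upwards [hI, mem_nhdsWithin_of_mem_nhds h2] with p hp hp2
    have hp1 : p ≤ 1 := hp.2.le.trans h1
    exact lt_of_lt_of_le hp2 (le_ciSup (Sp_bdd G hp.1.le hp1 A) r)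
  · filter_upwards [hI] with p hp
    exact lt_of_le_of_lt (sp_mono_p G hp.1.le hp.2.le h1 hA) hb

theorem sp_harris {p : ℝ} (h0 : 0 ≤ p) (h1 : p ≤ 1) {A B : Finset (Sym2 V) → Prop} (hA : Inc A)
    (hB : Inc B) : sp G p A * sp G p B ≤ sp G p (fun ω => A ω ∧ B ω) := by
  have hI : Inc (fun ω => A ω ∧ B ω) := fun ω ω' h hω => ⟨hA _ _ h hω.1, hB _ _ h hω.2⟩
  exact le_of_tendsto_of_tendsto' ((sp_tendsto G h0 h1 hA).mul (sp_tendsto G h0 h1 hB))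
    (sp_tendsto G h0 h1 hI) fun r => harris h0 h1 _ A B hA hB

theorem sp_or_le {p : ℝ} (h0 : 0 ≤ p) (h1 : p ≤ 1) {A B : Finset (Sym2 V) → Prop} (hA : Inc A)
    (hB : Inc B) : sp G p (fun ω => A ω ∨ B ω) ≤ sp G p A + sp G p B := by
  have hI : Inc (fun ω => A ω ∨ B ω) := fun ω ω' h hω => hω.imp (hA _ _ h) (hB _ _ h)
  exact le_of_tendsto_of_tendsto' (sp_tendsto G h0 h1 hI)
    ((sp_tendsto G h0 h1 hA).add (sp_tendsto G h0 h1 hB)) fun r => Pr_or_le h0 h1 _ A B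

theorem sp_exists_le {κ : Type} {p : ℝ} (h0 : 0 ≤ p) (h1 : p ≤ 1) (s : Finset κ)
    {A : κ → Finset (Sym2 V) → Prop} (hA : ∀ k ∈ s, Inc (A k)) :
    sp G p (fun ω => ∃ k ∈ s, A k ω) ≤ ∑ k ∈ s, sp G p (A k) := by
  have hI : Inc (fun ω => ∃ k ∈ s, A k ω) := by
    rintro ω ω' h ⟨k, hk, hk1⟩
    exact ⟨k, hk, hA k hk _ _ h hk1⟩
  exact le_of_tendsto_of_tendsto' (sp_tendsto G h0 h1 hI)
    (tendsto_finsetSum s fun k hk => sp_tendsto G h0 h1 (hA k hk)) fun r => Pr_exists_le h0 h1 _ s A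

end IPC.T
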