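import Pool.Agent.Lib.MP_25e40f_pr.T.Cross
import Pool.Agent.Lib.MP_25e40f_pr.T.Sp

/-!
# Stream T, job Tau: the two point function in infinite volume (about 110 lines)

`tau_eq_sp`: by definition (`rfl`).  So `tau_tendsto`, `tauD_le_tau`, `tau_le_of`, bounds, `tau_mono_p`, `tau_leftcont` are the statements of T/Sp for `A = (Conn · x y)` (`Conn_inc`).  `tau_self`: `sp_true`; `tau_symm`: `sp_congr`.
`tau_trans`: `sp_harris`, `sp_mono` (`Conn_trans`).  `tau_nb`: `exists_Lam {x, y}`, `tauD_nb`, `tauD_le_tau`.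
`tau_pos`: induction on `Relation.ReflTransGen`: `tau_trans`, `tau_nb`.
`tau_step`: `tauD_step` and limits (`le_of_tendsto_of_tendsto'`, `tendsto_finset_sum`).
`tau_crossing`: for `S` finite, `x ∈ S`, `v ∉ S`: `crossing` in `D = Lam r`, `r` large (`S ⊆ Lam r` by `exists_Lam`, `Lam_mono`), `tauD p S x y` is fixed, `(nb y \ S) ∩ Lam r ⊆ nb y \ S`, `tauD p (Lam r) z v ≤ tau p z v`; `tau_le_of`-type:
`le_of_tendsto` with eventually.
-/

set_option autoImplicit false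

noncomputable section

open Finset
open scoped Classical

namespace IPC.T

variable {V : Type} [DecidableEq V] (G : PG V)

theorem tau_eq_sp (p : ℝ) (x y : V) : G.tau p x y = sp G p (fun ω => Conn ω x y) := rfl

theorem tau_tendsto {p : ℝ} (h0 : 0 ≤ p) (h1 : p ≤ 1) (x y : V) :
    Filter.Tendsto (fun r => G.tauD p (G.Lam r) x y) Filter.atTop (nhds (G.tau p x y)) :=
  sp_tendsto G h0 h1 (Conn_inc x y)

theorem tauD_le_tau {p : ℝ} (h0 : 0 ≤ p) (h1 : p ≤ 1) (D : Finset V) (x y : V) :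
    G.tauD p D x y ≤ G.tau p x y :=
  Pr_le_sp G h0 h1 (Conn_inc x y) D

theorem tau_le_of {p : ℝ} {c : ℝ} {x y : V} (h : ∀ D : Finset V, G.tauD p D x y ≤ c) :
    G.tau p x y ≤ c :=
  sp_le_of G h

theorem tau_nonneg {p : ℝ} (h0 : 0 ≤ p) (h1 : p ≤ 1) (x y : V) : 0 ≤ G.tau p x y :=
  sp_nonneg G h0 h1 _

theorem tau_le_one {p : ℝ} (h0 : 0 ≤ p) (h1 : p ≤ 1) (x y : V) : G.tau p x y ≤ 1 :=
  sp_le_one G h0 h1 _

theorem tau_self (p : ℝ) (x : V) : G.tau p x x = 1 :=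
  sp_true G p fun ω => Conn_refl ω x

theorem tau_symm (p : ℝ) (x y : V) : G.tau p x y = G.tau p y x :=
  sp_congr G p fun _ => ⟨Conn_symm, Conn_symm⟩

theorem tau_mono_p {p q : ℝ} (h0 : 0 ≤ p) (hpq : p ≤ q) (h1 : q ≤ 1) (x y : V) :
    G.tau p x y ≤ G.tau q x y :=
  sp_mono_p G h0 hpq h1 (Conn_inc x y)

theorem tau_leftcont {p0 : ℝ} (h0 : 0 < p0) (h1 : p0 ≤ 1) (x y : V) :
    Filter.Tendsto (fun p => G.tau p x y) (nhdsWithin p0 (Set.Iio p0)) (nhds (G.tau p0 x y)) :=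
  sp_leftcont G h0 h1 (Conn_inc x y)

theorem tau_nb {p : ℝ} (h0 : 0 ≤ p) (h1 : p ≤ 1) {x y : V} (h : y ∈ G.nb x) : p ≤ G.tau p x y :=
  (tauD_nb G h0 h1 (D := {x, y}) (Finset.mem_insert_self _ _)
    (Finset.mem_insert_of_mem (Finset.mem_singleton_self _)) h).trans (tauD_le_tau G h0 h1 _ x y)

theorem tau_trans {p : ℝ} (h0 : 0 ≤ p) (h1 : p ≤ 1) (x y z : V) :
    G.tau p x y * G.tau p y z ≤ G.tau p x z :=
  (sp_harris G h0 h1 (Conn_inc x y) (Conn_inc y z)).trans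
    (sp_mono G h0 h1 fun _ h => Conn_trans h.1 h.2)

theorem tau_pos {p : ℝ} (h0 : 0 < p) (h1 : p ≤ 1) {x y : V}
    (h : Relation.ReflTransGen (fun a b => b ∈ G.nb a) x y) : 0 < G.tau p x y := by
  induction h with
  | refl =>
    rw [tau_self]
    exact one_pos
  | tail _ h2 ih =>
    exact lt_of_lt_of_le (mul_pos ih (lt_of_lt_of_le h0 (tau_nb G h0.le h1 h2)))
      (tau_trans G h0.le h1 _ _ _)

theorem tau_step {p : ℝ} (h0 : 0 ≤ p) (h1 : p ≤ 1 / 2) (x y : V) :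
    G.tau p x y ≤ (if x = y then 1 else 0) + ∑ z ∈ G.nb x, p * G.tau p z y := by
  have h1' : p ≤ 1 := by linarith
  apply tau_le_of
  intro D
  refine (tauD_step G h0 h1 D x y).trans (add_le_add_right ?_ _)
  exact Finset.sum_le_sum fun z _ => mul_le_mul_of_nonneg_left (tauD_le_tau G h0 h1' D z y) h0

theorem tau_crossing {p : ℝ} (h0 : 0 ≤ p) (h1 : p ≤ 1 / 2) {S : Finset V} {x v : V}
    (hx : x ∈ S) (hv : v ∉ S) :
    G.tau p x v ≤ ∑ y ∈ S, ∑ z ∈ G.nb y \ S, G.tauD p S x y * p * G.tau p z v := by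
  have h1' : p ≤ 1 := by linarith
  apply tau_le_of
  intro D
  refine (tauD_mono_D G h0 h1' (Finset.subset_union_left (s₁ := D) (s₂ := S)) x v).trans ?_
  refine (crossing G h0 h1 (Finset.subset_union_right (s₁ := D) (s₂ := S)) hx hv).trans ?_
  apply Finset.sum_le_sum
  intro y _
  have hc : 0 ≤ G.tauD p S x y * p := mul_nonneg (tauD_nonneg G h0 h1' S x y) h0
  refine (Finset.sum_le_sum fun z _ =>
    mul_le_mul_of_nonneg_left (tauD_le_tau G h0 h1' (D ∪ S) z v) hc).trans ?_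
  exact Finset.sum_le_sum_of_subset_of_nonneg Finset.inter_subset_left
    fun z _ _ => mul_nonneg hc (tau_nonneg G h0 h1' z v)

end IPC.T
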