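import Pool.Agent.Lib.MP_25e40f_pr.T.Tau

/-!
# Stream T, job Iso: images of edge sets, automorphisms and embeddings (about 140 lines)

`Pr_map`: `EE_image` of A/Bas with `Set.injOn_of_injective`; `Sym2.map.injective`.
`Cl_image`: `Conn_image` of A/Cnn, and a vertex connected in `ω.image (Sym2.map φ)` to `φ f` is in the range of `φ` (`Conn_mem_VV`, `mem_VV`: `s(a, b) ∈ ω.image (Sym2.map φ)` means `s(a, b) = s(φ c, φ d)`, `Sym2.eq_iff`).
`ein_iso`, `touch_iso`: `ext e`, `Sym2.ind`, `mem_ein`, `mem_touch`, `φ` bijective (`Finset.mem_image`; write the endpoints as `φ a`, `φ b`).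
`tauD_iso`: `ein_iso`, `Pr_map`, `Conn_image`.  `Pr_iso`: the general version.
`tau_embed`: `φ` injective with `b ∈ G.nb a → φ b ∈ G'.nb (φ a)`: `(G.ein D).image (Sym2.map φ) ⊆ G'.ein (D.image φ)`, so `tauD G p D x y = Pr p ((G.ein D).image (Sym2.map φ)) (Conn · (φ x) (φ y)) ≤ tauD G' p (D.image φ) (φ x) (φ y) ≤ tau`;
`tau_le_of`.
`tau_iso`: `tau_embed` for `φ` and for `φ.symm`.  `sp_iso`: for every increasing event `A` of `G'`: `sp G' p A = sp G p (fun ω => A (ω.image (Sym2.map φ)))`: both sides are suprema over all finite `D` (`Pr_le_sp`, `sp_le_of`).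
-/

set_option autoImplicit false

noncomputable section

open Finset
open scoped Classical

namespace IPC.T

theorem Pr_map {ε ε' : Type} [DecidableEq ε] [DecidableEq ε'] (p : ℝ) (E : Finset ε) {j : ε → ε'}
    (hj : Function.Injective j) (A : Finset ε' → Prop) :
    Pr p (E.image j) A = Pr p E (fun ω => A (ω.image j)) := by
  unfold Pr
  exact EE_image p E j (Set.injOn_of_injective hj) _

variable {V V' : Type} [DecidableEq V] [DecidableEq V']

theorem Cl_image {ω : Finset (Sym2 V)} {φ : V → V'} (hφ : Function.Injective φ) (F : Finset V) :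
    Cl (ω.image (Sym2.map φ)) (F.image φ) = φ '' Cl ω F := by
  ext z
  constructor
  · rintro ⟨g, hg, h⟩
    obtain ⟨f, hf, rfl⟩ := Finset.mem_image.1 hg
    by_cases hz : φ f = z
    · exact ⟨f, ⟨f, hf, Conn_refl _ _⟩, hz⟩
    · obtain ⟨w, hw⟩ := (mem_VV _ _).1 (Conn_mem_VV h hz).2
      obtain ⟨e, he, h1⟩ := Finset.mem_image.1 hw
      induction e using Sym2.ind with
      | _ u v =>
        rw [Sym2.map_mk] at h1
        rcases Sym2.eq_iff.1 h1 with ⟨h2, _⟩ | ⟨_, h2⟩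
        · subst h2
          exact ⟨u, ⟨f, hf, (Conn_image φ hφ ω f u).1 h⟩, rfl⟩
        · subst h2
          exact ⟨v, ⟨f, hf, (Conn_image φ hφ ω f v).1 h⟩, rfl⟩
  · rintro ⟨y, ⟨f, hf, h⟩, rfl⟩
    exact ⟨φ f, Finset.mem_image_of_mem φ hf, (Conn_image φ hφ ω f y).2 h⟩

variable (G : PG V) (G' : PG V')

theorem tau_embed {p : ℝ} (h0 : 0 ≤ p) (h1 : p ≤ 1) {φ : V → V'} (hφ : Function.Injective φ)
    (hnb : ∀ a b, b ∈ G.nb a → φ b ∈ G'.nb (φ a)) (x y : V) :
    G.tau p x y ≤ G'.tau p (φ x) (φ y) := by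
  refine tau_le_of G fun D => ?_
  have h2 : G.tauD p D x y =
      Pr p ((G.ein D).image (Sym2.map φ)) (fun ω => Conn ω (φ x) (φ y)) := by
    rw [Pr_map p (G.ein D) (Sym2.map.injective hφ)]
    exact Pr_congr p _ fun ω _ => (Conn_image φ hφ ω x y).symm
  rw [h2]
  have h3 : (G.ein D).image (Sym2.map φ) ⊆ G'.ein (D.image φ) := by
    intro e he
    obtain ⟨e', he', rfl⟩ := Finset.mem_image.1 he
    induction e' using Sym2.ind with
    | _ u v =>
      obtain ⟨h4, h5, h6⟩ := (mem_ein G).1 he'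
      rw [Sym2.map_mk]
      exact (mem_ein G').2 ⟨hnb u v h4, Finset.mem_image_of_mem φ h5,
        Finset.mem_image_of_mem φ h6⟩
  exact (Pr_mono_E h0 h1 h3 (Conn_inc (φ x) (φ y))).trans (tauD_le_tau G' h0 h1 _ _ _)

theorem ein_iso (φ : V ≃ V') (hnb : ∀ a b, b ∈ G.nb a ↔ φ b ∈ G'.nb (φ a)) (D : Finset V) :
    G'.ein (D.image φ) = (G.ein D).image (Sym2.map φ) := by
  ext e
  induction e using Sym2.ind with
  | _ a' b' =>
    obtain ⟨a, rfl⟩ := φ.surjective a'
    obtain ⟨b, rfl⟩ := φ.surjective b'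
    have h0 : ∀ c : V, φ c ∈ D.image φ ↔ c ∈ D := by
      intro c
      constructor
      · intro h
        obtain ⟨d, hd, hd'⟩ := Finset.mem_image.1 h
        rwa [φ.injective hd'] at hd
      · intro h
        exact Finset.mem_image_of_mem φ h
    rw [mem_ein, ← hnb, h0, h0]
    constructor
    · rintro ⟨h1, h2, h3⟩
      exact Finset.mem_image.2 ⟨s(a, b), (mem_ein G).2 ⟨h1, h2, h3⟩, rfl⟩
    · intro h
      obtain ⟨e, he, h1⟩ := Finset.mem_image.1 h
      induction e using Sym2.ind with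
      | _ u v =>
        rw [Sym2.map_mk] at h1
        obtain ⟨h2, h3, h4⟩ := (mem_ein G).1 he
        rcases Sym2.eq_iff.1 h1 with ⟨h5, h6⟩ | ⟨h5, h6⟩
        · rw [← φ.injective h5, ← φ.injective h6]
          exact ⟨h2, h3, h4⟩
        · rw [← φ.injective h5, ← φ.injective h6]
          exact ⟨(nb_comm G).1 h2, h4, h3⟩

theorem touch_iso (φ : V ≃ V') (hnb : ∀ a b, b ∈ G.nb a ↔ φ b ∈ G'.nb (φ a)) (D : Finset V) :
    G'.touch (D.image φ) = (G.touch D).image (Sym2.map φ) := by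
  ext e
  induction e using Sym2.ind with
  | _ a' b' =>
    obtain ⟨a, rfl⟩ := φ.surjective a'
    obtain ⟨b, rfl⟩ := φ.surjective b'
    have h0 : ∀ c : V, φ c ∈ D.image φ ↔ c ∈ D := by
      intro c
      constructor
      · intro h
        obtain ⟨d, hd, hd'⟩ := Finset.mem_image.1 h
        rwa [φ.injective hd'] at hd
      · intro h
        exact Finset.mem_image_of_mem φ h
    rw [mem_touch, ← hnb, h0, h0]
    constructor
    · intro h1
      exact Finset.mem_image.2 ⟨s(a, b), (mem_touch G).2 h1, rfl⟩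
    · intro h
      obtain ⟨e, he, h1⟩ := Finset.mem_image.1 h
      induction e using Sym2.ind with
      | _ u v =>
        rw [Sym2.map_mk] at h1
        obtain ⟨h2, h3⟩ := (mem_touch G).1 he
        rcases Sym2.eq_iff.1 h1 with ⟨h5, h6⟩ | ⟨h5, h6⟩
        · rw [← φ.injective h5, ← φ.injective h6]
          exact ⟨h2, h3⟩
        · rw [← φ.injective h5, ← φ.injective h6]
          exact ⟨(nb_comm G).1 h2, h3.symm⟩

theorem Pr_iso (p : ℝ) (φ : V ≃ V') (hnb : ∀ a b, b ∈ G.nb a ↔ φ b ∈ G'.nb (φ a))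
    (D : Finset V) (A : Finset (Sym2 V') → Prop) :
    Pr p (G'.ein (D.image φ)) A = Pr p (G.ein D) (fun ω => A (ω.image (Sym2.map φ))) := by
  rw [ein_iso G G' φ hnb D, Pr_map p _ (Sym2.map.injective φ.injective)]

theorem tauD_iso (p : ℝ) (φ : V ≃ V') (hnb : ∀ a b, b ∈ G.nb a ↔ φ b ∈ G'.nb (φ a))
    (D : Finset V) (x y : V) : G'.tauD p (D.image φ) (φ x) (φ y) = G.tauD p D x y := by
  unfold PG.tauD
  rw [Pr_iso G G' p φ hnb D]
  exact Pr_congr p _ fun ω _ => Conn_image φ φ.injective ω x y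

theorem sp_iso {p : ℝ} (h0 : 0 ≤ p) (h1 : p ≤ 1) (φ : V ≃ V')
    (hnb : ∀ a b, b ∈ G.nb a ↔ φ b ∈ G'.nb (φ a)) {A : Finset (Sym2 V') → Prop} (hA : Inc A) :
    sp G' p A = sp G p (fun ω => A (ω.image (Sym2.map φ))) := by
  have hB : Inc (fun ω : Finset (Sym2 V) => A (ω.image (Sym2.map φ))) := by
    intro ω ω' h h'
    exact hA _ _ (Finset.image_subset_image h) h'
  refine le_antisymm (sp_le_of G' fun D' => ?_) (sp_le_of G fun D => ?_)
  · have h2 : D' = (D'.image φ.symm).image φ := by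
      rw [Finset.image_image, Equiv.self_comp_symm, Finset.image_id]
    rw [h2, Pr_iso G G' p φ hnb]
    exact Pr_le_sp G h0 h1 hB _
  · rw [← Pr_iso G G' p φ hnb D A]
    exact Pr_le_sp G' h0 h1 hA _

theorem tau_iso {p : ℝ} (h0 : 0 ≤ p) (h1 : p ≤ 1) (φ : V ≃ V')
    (hnb : ∀ a b, b ∈ G.nb a ↔ φ b ∈ G'.nb (φ a)) (x y : V) :
    G'.tau p (φ x) (φ y) = G.tau p x y := by
  refine le_antisymm ?_ ?_
  · have h := tau_embed G' G h0 h1 φ.symm.injective (fun a b hab => by
      rw [hnb, φ.apply_symm_apply, φ.apply_symm_apply]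
      exact hab) (φ x) (φ y)
    rwa [φ.symm_apply_apply, φ.symm_apply_apply] at h
  · exact tau_embed G G' h0 h1 φ.injective (fun a b hab => (hnb a b).1 hab) x y

end IPC.T
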