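import Pool.Agent.Lib.MP_25e40f_pr.T.Tau

/-!
# Stream T, job Arm: arm probabilities, no percolation below `pc` (about 130 lines)

`arm p x r = Pr p (ein (Lam (r + 1))) (∃ y ∈ Lam (r + 1) \ Lam r, Conn ω x y)`.
`exit_Lam`: for `ω ⊆ ein D`, `x ∈ Lam r`, `Conn ω x v`, `v ∉ Lam r`: there is `y ∈ Lam (r + 1) \ Lam r` with `Conn (ω ∩ ein (Lam (r + 1))) x y`: `Conn_exit_edge` with `X = Lam r`: `a ∈ Lam r`, `b ∉ Lam r`, `s(a, b) ∈ ω`, so `b ∈ nb a ⊆ Lam (r + 1)`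
(`G.step`); the edges inside `Lam r` and `s(a, b)` are in `ein (Lam (r + 1))` (`filter_inside`, `mem_ein`).
`arm_ge`: for `x ∈ Lam r`, `T` disjoint from `Lam r` and any finite `D`: `Pr p (ein D) (∃ v ∈ T, Conn ω x v) ≤ arm p x r`: the event is contained in `B ω = ∃ y ∈ .., Conn (ω ∩ ein (Lam (r+1))) x y`, which depends on `ω ∩ (ein D ∩ ein (Lam (r+1)))`:
`Pr p (ein D) B = Pr p (ein D ∩ ein (Lam (r+1))) B ≤ Pr p (ein (Lam (r+1))) B` (`Pr_restrict`, `Pr_mono_E`) and there `B` is the event of `arm` (`Pr_congr`).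
`arm_anti`: `r ≤ s`, `x ∈ Lam r`: `arm_ge` with `D = Lam (s + 1)`, `T = Lam (s + 1) \ Lam s`, disjoint from `Lam r`.
`arm_mono_p`: `Pr_mono_p`.  `noPerc_mono`: squeeze with `arm_mono_p`.
`noPerc_of_lt`: `p < sSup ..`: `exists_lt_of_lt_csSup` (the set is nonempty, otherwise `pc = 0 ≤ p`), `noPerc_mono`.  `pc_nonneg`, `pc_le_one`: `Real.sSup_nonneg`, `Real.sSup_le`.
`Pr_diff_arm`: for `D ⊇ Lam (r + 1)` and an event of the form `A ω = ∀ f ∈ F, Conn ω f y`, `F ⊆ Lam r`: if `A ω` but not `A (ω ∩ ein (Lam (r+1)))`, then for some `f ∈ F` not `Conn (ω ∩ ein (Lam (r+1))) f y`, so (`stay_or_exit` with `X = Lam r`)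
`f` is connected to `Lam (r + 1) \ Lam r` in `ω ∩ ein (Lam (r + 1))`.  `Pr p (ein D) A - Pr p (ein (Lam (r+1))) A = Pr p (ein D) (A ω ∧ ¬ A (ω ∩ ein (Lam (r+1))))` (`Pr_split`, `Pr_restrict`), then `Pr_exists_le` and as in `arm_ge`.
`tauD_diff`, `tau_diff`: `F = {x}`; the limit.
-/

set_option autoImplicit false

noncomputable section

open Finset
open scoped Classical

namespace IPC.T

variable {V : Type} [DecidableEq V] (G : PG V)

theorem arm_nonneg {p : ℝ} (h0 : 0 ≤ p) (h1 : p ≤ 1) (x : V) (r : ℕ) : 0 ≤ G.arm p x r :=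
  Pr_nonneg h0 h1 _ _

theorem arm_le_one {p : ℝ} (h0 : 0 ≤ p) (h1 : p ≤ 1) (x : V) (r : ℕ) : G.arm p x r ≤ 1 :=
  Pr_le_one h0 h1 _ _

private theorem arm_inside {D : Finset V} {ω : Finset (Sym2 V)} (hω : ω ⊆ G.ein D) {r : ℕ} :
    (ω.filter fun e => ∀ a ∈ e, a ∈ (G.Lam r : Set V)) ⊆ ω ∩ G.ein (G.Lam (r + 1)) := by
  intro e he
  rw [Finset.mem_filter] at he
  rw [Finset.mem_inter]
  refine ⟨he.1, ?_⟩
  obtain ⟨h1, h2⟩ := he
  induction e using Sym2.ind with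
  | _ c d =>
    have h3 := (mem_ein G).1 (hω h1)
    rw [mem_ein]
    exact ⟨h3.1, G.mono r (h2 c (Sym2.mem_mk_left c d)), G.mono r (h2 d (Sym2.mem_mk_right c d))⟩

theorem exit_Lam {D : Finset V} {ω : Finset (Sym2 V)} (hω : ω ⊆ G.ein D) {r : ℕ} {x v : V}
    (hx : x ∈ G.Lam r) (hv : v ∉ G.Lam r) (h : Conn ω x v) :
    ∃ y ∈ G.Lam (r + 1) \ G.Lam r, Conn (ω ∩ G.ein (G.Lam (r + 1))) x y := by
  obtain ⟨a, b, ha, hb, hab, hc⟩ := Conn_exit_edge (G.Lam r : Set V) hx hv h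
  have h1 := (mem_ein G).1 (hω hab)
  have h2 : b ∈ G.Lam (r + 1) := G.step r a ha h1.1
  refine ⟨b, Finset.mem_sdiff.2 ⟨h2, hb⟩, ?_⟩
  refine Conn_trans (Conn_mono (arm_inside G hω) hc) (Conn_edge ?_)
  rw [Finset.mem_inter, mem_ein]
  exact ⟨hab, h1.1, G.mono r ha, h2⟩

theorem arm_ge {p : ℝ} (h0 : 0 ≤ p) (h1 : p ≤ 1) (D : Finset V) {r : ℕ} {x : V} (hx : x ∈ G.Lam r)
    {T : Set V} (hT : ∀ v ∈ T, v ∉ G.Lam r) :
    Pr p (G.ein D) (fun ω => ∃ v ∈ T, Conn ω x v) ≤ G.arm p x r := by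
  have hB : Inc (fun ω : Finset (Sym2 V) => ∃ y ∈ G.Lam (r + 1) \ G.Lam r,
      Conn (ω ∩ G.ein (G.Lam (r + 1))) x y) := by
    rintro ω ω' h ⟨y, hy, hc⟩
    exact ⟨y, hy, Conn_mono (Finset.inter_subset_inter_right h) hc⟩
  calc Pr p (G.ein D) (fun ω => ∃ v ∈ T, Conn ω x v)
      ≤ Pr p (G.ein D) (fun ω => ∃ y ∈ G.Lam (r + 1) \ G.Lam r,
          Conn (ω ∩ G.ein (G.Lam (r + 1))) x y) := by
        refine Pr_mono h0 h1 _ ?_
        rintro ω hω ⟨v, hv, hc⟩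
        exact exit_Lam G hω hx (hT v hv) hc
    _ = Pr p (G.ein D ∩ G.ein (G.Lam (r + 1))) (fun ω => ∃ y ∈ G.Lam (r + 1) \ G.Lam r,
          Conn (ω ∩ G.ein (G.Lam (r + 1))) x y) := by
        refine Pr_restrict p Finset.inter_subset_left _ fun ω hω => ?_
        have h2 : ω ∩ (G.ein D ∩ G.ein (G.Lam (r + 1))) ∩ G.ein (G.Lam (r + 1)) =
            ω ∩ G.ein (G.Lam (r + 1)) := by
          ext e
          simp only [Finset.mem_inter]
          constructor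
          · rintro ⟨⟨h3, _⟩, h4⟩
            exact ⟨h3, h4⟩
          · rintro ⟨h3, h4⟩
            exact ⟨⟨h3, hω h3, h4⟩, h4⟩
        rw [h2]
    _ ≤ Pr p (G.ein (G.Lam (r + 1))) (fun ω => ∃ y ∈ G.Lam (r + 1) \ G.Lam r,
          Conn (ω ∩ G.ein (G.Lam (r + 1))) x y) := Pr_mono_E h0 h1 Finset.inter_subset_right hB
    _ = G.arm p x r := by
        refine Pr_congr p _ fun ω hω => ?_
        rw [Finset.inter_eq_left.2 hω]

theorem arm_anti {p : ℝ} (h0 : 0 ≤ p) (h1 : p ≤ 1) {r s : ℕ} (h : r ≤ s) {x : V}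
    (hx : x ∈ G.Lam r) : G.arm p x s ≤ G.arm p x r := by
  refine le_trans (le_of_eq ?_) (arm_ge G h0 h1 (G.Lam (s + 1)) hx
    (T := {v | v ∈ G.Lam (s + 1) \ G.Lam s}) ?_)
  · exact Pr_congr p _ fun ω _ => Iff.rfl
  · intro v hv hr
    have h2 : v ∈ G.Lam (s + 1) \ G.Lam s := hv
    exact (Finset.mem_sdiff.1 h2).2 (Lam_mono G h hr)

theorem arm_mono_p {p q : ℝ} (h0 : 0 ≤ p) (hpq : p ≤ q) (h1 : q ≤ 1) (x : V) (r : ℕ) :
    G.arm p x r ≤ G.arm q x r := by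
  refine Pr_mono_p h0 hpq h1 _ ?_
  rintro ω ω' h ⟨y, hy, hc⟩
  exact ⟨y, hy, Conn_mono h hc⟩

theorem noPerc_mono {p q : ℝ} (h0 : 0 ≤ p) (hpq : p ≤ q) (h1 : q ≤ 1) (h : G.NoPerc q) :
    G.NoPerc p := fun x =>
  squeeze_zero (fun r => arm_nonneg G h0 (hpq.trans h1) x r) (fun r => arm_mono_p G h0 hpq h1 x r)
    (h x)

/-- below `pc` there is no percolation -/
theorem noPerc_of_lt {p : ℝ} (h0 : 0 ≤ p) (h : p < G.pc) : G.NoPerc p := by
  unfold PG.pc at h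
  have hne : {p : ℝ | 0 ≤ p ∧ p ≤ 1 ∧ G.NoPerc p}.Nonempty := by
    by_contra h2
    rw [Set.not_nonempty_iff_eq_empty] at h2
    rw [h2, Real.sSup_empty] at h
    linarith
  obtain ⟨q, hq, hpq⟩ := exists_lt_of_lt_csSup hne h
  exact noPerc_mono G h0 hpq.le hq.2.1 hq.2.2

theorem pc_nonneg : 0 ≤ G.pc := Real.sSup_nonneg fun _ hx => hx.1

theorem pc_le_one : G.pc ≤ 1 := Real.sSup_le (fun _ hx => hx.2.1) zero_le_one

theorem allConn_diff {p : ℝ} (h0 : 0 ≤ p) (h1 : p ≤ 1) {D : Finset V} {r : ℕ}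
    (hD : G.Lam (r + 1) ⊆ D) {F : Finset V} (hF : F ⊆ G.Lam r) (y : V) :
    Pr p (G.ein D) (fun ω => AllConn ω F y) -
      Pr p (G.ein (G.Lam (r + 1))) (fun ω => AllConn ω F y) ≤ ∑ f ∈ F, G.arm p f r := by
  have hsub : G.ein (G.Lam (r + 1)) ⊆ G.ein D := ein_mono G hD
  have e1 := Pr_split p (G.ein D) (fun ω => AllConn ω F y)
    (fun ω => AllConn (ω ∩ G.ein (G.Lam (r + 1))) F y)
  have e2 : Pr p (G.ein D) (fun ω => AllConn ω F y ∧ AllConn (ω ∩ G.ein (G.Lam (r + 1))) F y) ≤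
      Pr p (G.ein (G.Lam (r + 1))) (fun ω => AllConn ω F y) := by
    calc _ ≤ Pr p (G.ein D) (fun ω => AllConn (ω ∩ G.ein (G.Lam (r + 1))) F y) :=
          Pr_mono h0 h1 _ fun ω _ h => h.2
      _ = Pr p (G.ein (G.Lam (r + 1))) (fun ω => AllConn (ω ∩ G.ein (G.Lam (r + 1))) F y) := by
          refine Pr_restrict p hsub _ fun ω _ => ?_
          rw [Finset.inter_assoc, Finset.inter_self]
      _ = _ := by
          refine Pr_congr p _ fun ω hω => ?_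
          rw [Finset.inter_eq_left.2 hω]
  have e3 : Pr p (G.ein D) (fun ω => AllConn ω F y ∧ ¬ AllConn (ω ∩ G.ein (G.Lam (r + 1))) F y) ≤
      ∑ f ∈ F, G.arm p f r := by
    calc _ ≤ Pr p (G.ein D) (fun ω => ∃ f ∈ F, ∃ v ∈ {v : V | v ∉ G.Lam r}, Conn ω f v) := by
          refine Pr_mono h0 h1 _ ?_
          rintro ω hω ⟨hA, hnA⟩
          unfold AllConn at hnA
          push Not at hnA
          obtain ⟨f, hf, hnf⟩ := hnA
          refine ⟨f, hf, ?_⟩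
          rcases stay_or_exit (X := (G.Lam r : Set V)) (hF hf) (hA f hf) with
            ⟨_, h2⟩ | ⟨s, _, t, ht, hst, h2⟩
          · exact absurd (Conn_mono (arm_inside G hω) h2) hnf
          · refine ⟨t, ht, ?_⟩
            exact Conn_trans (Conn_mono (Finset.filter_subset _ _) h2) (Conn_edge hst)
      _ ≤ ∑ f ∈ F, Pr p (G.ein D) (fun ω => ∃ v ∈ {v : V | v ∉ G.Lam r}, Conn ω f v) :=
          Pr_exists_le h0 h1 _ F (fun f ω => ∃ v ∈ {v : V | v ∉ G.Lam r}, Conn ω f v)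
      _ ≤ _ := Finset.sum_le_sum fun f hf => arm_ge G h0 h1 D (hF hf) (fun v hv => hv)
  linarith

theorem tauD_diff {p : ℝ} (h0 : 0 ≤ p) (h1 : p ≤ 1) {D : Finset V} {r : ℕ}
    (hD : G.Lam (r + 1) ⊆ D) {x : V} (hx : x ∈ G.Lam r) (y : V) :
    G.tauD p D x y - G.tauD p (G.Lam (r + 1)) x y ≤ G.arm p x r := by
  have h := allConn_diff G h0 h1 hD (Finset.singleton_subset_iff.2 hx) y
  rw [allConn_single, allConn_single, Finset.sum_singleton] at h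
  exact h

theorem tau_diff {p : ℝ} (h0 : 0 ≤ p) (h1 : p ≤ 1) {r : ℕ} {x : V} (hx : x ∈ G.Lam r) (y : V) :
    G.tau p x y - G.tauD p (G.Lam (r + 1)) x y ≤ G.arm p x r := by
  have h : G.tau p x y ≤ G.tauD p (G.Lam (r + 1)) x y + G.arm p x r := by
    refine le_of_tendsto (tau_tendsto G h0 h1 x y) ?_
    filter_upwards [Filter.eventually_ge_atTop (r + 1)] with s hs
    have h2 := tauD_diff G h0 h1 (Lam_mono G hs) hx y
    linarith
  linarith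

end IPC.T
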