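import Pool.Agent.Lib.MP_25e40f_pr.T.TauD
import Pool.Agent.Lib.MP_25e40f_pr.A.BK

/-!
# Stream T, job Cross: crossing inequalities (about 170 lines)

`crossing`: `x ∈ S`, `v ∉ S`, `S ⊆ D`. For `ω ⊆ ein D` with `Conn ω x v`: `exists_trail`, `Trail_exit`: `y ∈ S`, `z ∉ S`, `s(y, z) ∈ ω` (so `z ∈ nb y`, `z ∈ D`), trails `ω1` (inside `S`, so `ω1 ⊆ ein S`) from `x` to `y` and `ω2` from `z` to `v`,
disjoint and without `s(y, z)`.  So one of the events `Occ [Ln (ein S) x y, fun ω => s(y, z) ∈ ω, fun ω => Conn ω z v]` occurs (`Occ_of_witness` with the list `[ω1, {s(y, z)}, ω2]`; `Trail_conn`).  `Pr_mono`, `Pr_exists_le` (over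
`S.biUnion ..` or over `S ×ˢ D` filtered by `z ∈ nb y \ S`; then `Finset.sum_product`/`Finset.sum_sigma`), `bk_list`: the factors are `tauD_Ln`, `Pr_mem` and `tauD p D z v` by definition.
`crossing_out`: the same with the event `∃ v ∈ T, Conn ω z v`.
`crossing_vertex`: `u ∈ S`, `v ∉ S` and `Y` contains all the neighbours outside `S` (in `D`) of points of `S`: the trail exits at `z ∈ Y`: `Occ [Conn · u z, Conn · z v]` with the witnesses `ω1 ∪ {s(y, z)}` and `ω2`; `bk_list`.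
`crossing_vertex_out`: the same with the event `∃ v ∈ T, Conn ω z v`.
`tauD_step`: `x = y`: `1 ≤ 1 + (nonnegative)`; `x ≠ y`, `x ∈ D`: `crossing` with `S = {x}` (`tauD p {x} x x = 1`), sums over `(nb x \ {x}) ∩ D ⊆ nb x`; if `x ∉ D` it is `0` (`tauD_eq_zero`).
-/

set_option autoImplicit false

noncomputable section

open Finset
open scoped Classical

namespace IPC.T

variable {V : Type} [DecidableEq V] (G : PG V)

private theorem Cross_trail {ω : Finset (Sym2 V)} {x v : V} (h : Conn ω x v) {S : Set V}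
    (hx : x ∈ S) (hv : v ∉ S) :
    ∃ y ∈ S, ∃ z, z ∉ S ∧ ∃ ω₁ ω₂, s(y, z) ∈ ω ∧ ω₁ ⊆ ω ∧ ω₂ ⊆ ω ∧ Disjoint ω₁ ω₂ ∧
      s(y, z) ∉ ω₁ ∧ s(y, z) ∉ ω₂ ∧ (∀ e ∈ ω₁, ∀ a ∈ e, a ∈ S) ∧ Conn ω₁ x y ∧ Conn ω₂ z v := by
  obtain ⟨ω', hω', ht⟩ := exists_trail h
  obtain ⟨y, hy, z, hz, ω₁, ω₂, h1, h2, h3, h4, h5, h6, h7, h8, h9⟩ := Trail_exit ht hx hv
  exact ⟨y, hy, z, hz, ω₁, ω₂, hω' h1, h2.trans hω', h3.trans hω', h4, h5, h6, h7,
    Trail_conn h8, Trail_conn h9⟩

private theorem Cross_mem_inc (e : Sym2 V) : Inc (fun ω : Finset (Sym2 V) => e ∈ ω) :=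
  fun _ _ h he => h he

private theorem Cross_out_inc (T : Finset V) (z : V) :
    Inc (fun ω : Finset (Sym2 V) => ∃ v ∈ T, Conn ω z v) := by
  rintro ω ω' h ⟨v, hv, hc⟩
  exact ⟨v, hv, Conn_mono h hc⟩

theorem crossing_out {p : ℝ} (h0 : 0 ≤ p) (h1 : p ≤ 1 / 2) {S D : Finset V} (hS : S ⊆ D) {x : V}
    {T : Finset V} (hx : x ∈ S) (hT : Disjoint S T) :
    Pr p (G.ein D) (fun ω => ∃ v ∈ T, Conn ω x v) ≤
      ∑ y ∈ S, ∑ z ∈ (G.nb y \ S) ∩ D, G.tauD p S x y * p *
        Pr p (G.ein D) (fun ω => ∃ v ∈ T, Conn ω z v) := by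
  have hp1 : p ≤ 1 := by linarith
  have e1 : Pr p (G.ein D) (fun ω => ∃ v ∈ T, Conn ω x v) ≤
      Pr p (G.ein D) (fun ω => ∃ k ∈ S.sigma (fun y => (G.nb y \ S) ∩ D),
        Occ [Ln (G.ein S) x k.1, fun ω => s(k.1, k.2) ∈ ω, fun ω => ∃ v ∈ T, Conn ω k.2 v] ω) := by
    refine Pr_mono h0 hp1 _ ?_
    rintro ω hω ⟨v, hvT, hc⟩
    have hvS : v ∉ (S : Set V) := fun h => Finset.disjoint_left.1 hT (Finset.mem_coe.1 h) hvT
    obtain ⟨y, hy, z, hz, ω₁, ω₂, g1, g2, g3, g4, g5, g6, g7, g8, g9⟩ :=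
      Cross_trail hc (S := (S : Set V)) (Finset.mem_coe.2 hx) hvS
    have hyz := (mem_ein G).1 (hω g1)
    refine ⟨⟨y, z⟩, Finset.mem_sigma.2 ⟨Finset.mem_coe.1 hy, Finset.mem_inter.2
      ⟨Finset.mem_sdiff.2 ⟨hyz.1, fun h => hz (Finset.mem_coe.2 h)⟩, hyz.2.2⟩⟩, ?_⟩
    have hsub : ω₁ ⊆ G.ein S := by
      intro e he
      have h7 := g7 e he
      have h8 := hω (g2 he)
      revert h7 h8
      refine Sym2.ind (fun a b => ?_) e
      intro h7 h8
      rw [mem_ein] at h8 ⊢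
      exact ⟨h8.1, Finset.mem_coe.1 (h7 a (Sym2.mem_mk_left a b)),
        Finset.mem_coe.1 (h7 b (Sym2.mem_mk_right a b))⟩
    refine Occ_of_witness _ ω [ω₁, {s(y, z)}, ω₂] rfl ?_ ?_ ?_
    · intro w hw
      simp only [List.mem_cons, List.not_mem_nil, or_false] at hw
      rcases hw with rfl | rfl | rfl
      · exact g2
      · exact Finset.singleton_subset_iff.2 g1
      · exact g3
    · refine List.Pairwise.cons ?_ (List.Pairwise.cons ?_ (List.Pairwise.cons ?_ List.Pairwise.nil))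
      · intro w hw
        simp only [List.mem_cons, List.not_mem_nil, or_false] at hw
        rcases hw with rfl | rfl
        · exact Finset.disjoint_singleton_right.2 g5
        · exact g4
      · intro w hw
        simp only [List.mem_cons, List.not_mem_nil, or_false] at hw
        rcases hw with rfl
        exact Finset.disjoint_singleton_left.2 g6
      · intro w hw
        exact absurd hw List.not_mem_nil
    · refine List.Forall₂.cons ?_ (List.Forall₂.cons ?_ (List.Forall₂.cons ?_ List.Forall₂.nil))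
      · show Conn (ω₁ ∩ G.ein S) x y
        rw [Finset.inter_eq_left.2 hsub]
        exact g8
      · exact Finset.mem_singleton_self _
      · exact ⟨v, hvT, g9⟩
  refine e1.trans ((Pr_exists_le h0 hp1 _ _ _).trans ?_)
  rw [Finset.sum_sigma]
  refine Finset.sum_le_sum fun y hy => Finset.sum_le_sum fun z hz => ?_
  have hz' := Finset.mem_inter.1 hz
  have hz'' := Finset.mem_sdiff.1 hz'.1
  refine (bk_list h0 h1 (G.ein D) _ ?_).trans (le_of_eq ?_)
  · intro A hA
    simp only [List.mem_cons, List.not_mem_nil, or_false] at hA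
    rcases hA with rfl | rfl | rfl
    · exact Ln_inc _ _ _
    · exact Cross_mem_inc _
    · exact Cross_out_inc T z
  · rw [List.map_cons, List.map_cons, List.map_cons, List.map_nil, List.prod_cons, List.prod_cons,
      List.prod_cons, List.prod_nil, mul_one]
    show Pr p (G.ein D) (Ln (G.ein S) x y) * (Pr p (G.ein D) (fun ω => s(y, z) ∈ ω) *
      Pr p (G.ein D) (fun ω => ∃ v ∈ T, Conn ω z v)) = _
    rw [tauD_Ln G p hS x y, Pr_mem p ((mem_ein G).2 ⟨hz''.1, hS hy, hz'.2⟩), mul_assoc]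

theorem crossing {p : ℝ} (h0 : 0 ≤ p) (h1 : p ≤ 1 / 2) {S D : Finset V} (hS : S ⊆ D) {x v : V}
    (hx : x ∈ S) (hv : v ∉ S) :
    G.tauD p D x v ≤ ∑ y ∈ S, ∑ z ∈ (G.nb y \ S) ∩ D, G.tauD p S x y * p * G.tauD p D z v := by
  have h2 := crossing_out G h0 h1 hS (T := {v}) hx (Finset.disjoint_singleton_right.2 hv)
  have e : ∀ z : V, Pr p (G.ein D) (fun ω => ∃ v' ∈ ({v} : Finset V), Conn ω z v') =
      G.tauD p D z v := by
    intro z
    unfold PG.tauD
    refine Pr_congr p _ fun ω _ => ?_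
    constructor
    · rintro ⟨v', hv', hc⟩
      rw [Finset.mem_singleton] at hv'
      rw [← hv']
      exact hc
    · intro hc
      exact ⟨v, Finset.mem_singleton_self v, hc⟩
  simp only [e] at h2
  exact h2

/-- a vertex version: `Y` contains the outer boundary of `S` -/
theorem crossing_vertex {p : ℝ} (h0 : 0 ≤ p) (h1 : p ≤ 1 / 2) {D : Finset V} {S : Set V}
    {Y : Finset V} (hY : ∀ y ∈ S, y ∈ D → ∀ z ∈ G.nb y, z ∉ S → z ∈ D → z ∈ Y) {u v : V}
    (hu : u ∈ S) (hv : v ∉ S) :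
    G.tauD p D u v ≤ ∑ z ∈ Y, G.tauD p D u z * G.tauD p D z v := by
  have hp1 : p ≤ 1 := by linarith
  have e1 : G.tauD p D u v ≤ Pr p (G.ein D) (fun ω => ∃ z ∈ Y,
      Occ [fun ω => Conn ω u z, fun ω => Conn ω z v] ω) := by
    refine Pr_mono h0 hp1 _ ?_
    intro ω hω hc
    obtain ⟨y, hy, z, hz, ω₁, ω₂, g1, g2, g3, g4, g5, g6, g7, g8, g9⟩ := Cross_trail hc hu hv
    have hyz := (mem_ein G).1 (hω g1)
    refine ⟨z, hY y hy hyz.2.1 z hyz.1 hz hyz.2.2, ?_⟩
    refine Occ_of_witness _ ω [insert s(y, z) ω₁, ω₂] rfl ?_ ?_ ?_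
    · intro w hw
      simp only [List.mem_cons, List.not_mem_nil, or_false] at hw
      rcases hw with rfl | rfl
      · exact Finset.insert_subset g1 g2
      · exact g3
    · refine List.Pairwise.cons ?_ (List.Pairwise.cons ?_ List.Pairwise.nil)
      · intro w hw
        simp only [List.mem_cons, List.not_mem_nil, or_false] at hw
        rcases hw with rfl
        exact Finset.disjoint_insert_left.2 ⟨g6, g4⟩
      · intro w hw
        exact absurd hw List.not_mem_nil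
    · refine List.Forall₂.cons ?_ (List.Forall₂.cons ?_ List.Forall₂.nil)
      · exact Conn_trans (Conn_mono (Finset.subset_insert _ _) g8)
          (Conn_edge (Finset.mem_insert_self _ _))
      · exact g9
  refine e1.trans ((Pr_exists_le h0 hp1 _ _ _).trans ?_)
  refine Finset.sum_le_sum fun z _ => ?_
  refine (bk_list h0 h1 (G.ein D) _ ?_).trans (le_of_eq ?_)
  · intro A hA
    simp only [List.mem_cons, List.not_mem_nil, or_false] at hA
    rcases hA with rfl | rfl
    · exact Conn_inc _ _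
    · exact Conn_inc _ _
  · rw [List.map_cons, List.map_cons, List.map_nil, List.prod_cons, List.prod_cons, List.prod_nil,
      mul_one]
    rfl

theorem tauD_step {p : ℝ} (h0 : 0 ≤ p) (h1 : p ≤ 1 / 2) (D : Finset V) (x y : V) :
    G.tauD p D x y ≤ (if x = y then 1 else 0) + ∑ z ∈ G.nb x, p * G.tauD p D z y := by
  have hp1 : p ≤ 1 := by linarith
  have hn : ∀ z ∈ G.nb x, 0 ≤ p * G.tauD p D z y := fun z _ =>
    mul_nonneg h0 (tauD_nonneg G h0 hp1 D z y)
  have hsum : 0 ≤ ∑ z ∈ G.nb x, p * G.tauD p D z y := Finset.sum_nonneg hn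
  by_cases hxy : x = y
  · rw [if_pos hxy, hxy, tauD_self]
    rw [hxy] at hsum
    linarith
  · rw [if_neg hxy, zero_add]
    by_cases hx : x ∈ D
    · have h2 := crossing G h0 h1 (S := {x}) (D := D) (Finset.singleton_subset_iff.2 hx)
        (x := x) (v := y) (Finset.mem_singleton_self x)
        (fun h => hxy (Finset.mem_singleton.1 h).symm)
      rw [Finset.sum_singleton] at h2
      refine h2.trans ?_
      have h3 : ∑ z ∈ (G.nb x \ {x}) ∩ D, G.tauD p {x} x x * p * G.tauD p D z y =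
          ∑ z ∈ (G.nb x \ {x}) ∩ D, p * G.tauD p D z y := by
        refine Finset.sum_congr rfl fun z _ => ?_
        rw [tauD_self, one_mul]
      rw [h3]
      exact Finset.sum_le_sum_of_subset_of_nonneg
        (Finset.inter_subset_left.trans Finset.sdiff_subset) fun z hz _ => hn z hz
    · rw [tauD_eq_zero G p hx hxy]
      exact hsum

end IPC.T
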