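import Pool.Agent.Lib.MP_25e40f_pr.T.Iso

/-!
# Stream T, job Inv: invariance of the coefficients of the expansion (about 120 lines)

For `φ` injective: `off (ω.image (Sym2.map φ)) (φ '' A) = (off ω A).image (Sym2.map φ)` (membership; `e = s(a, b)`), so `ConnOff_image` from `Conn_image`.  `(ω.image j).erase (j e) = (ω.erase e).image j` (`Finset.image_erase`-type, `j = Sym2.map φ`
injective: `Sym2.map.injective`), so `Thru_image`, and `EP_image`: the pairs `y, y'` of the definition of `EP` on the image side: `s(y, y') ∈ ω.image (Sym2.map φ)` means `y = φ z`, `y' = φ z'` with `s(z, z') ∈ ω` (`Sym2.eq_iff`, possibly after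
exchanging the endpoints of the edge), `Cl_image`, `Function.Injective.mem_set_image`.
`cc_iso`, `ec_iso`: unfold, `touch_iso`, `Pr_map`, `Pr_congr`; `Cl (..image ..) (F.image φ) = (S.image φ : Set _)` iff `φ '' Cl ω F = φ '' S` iff `Cl ω F = S` (`Set.image_injective`, `Finset.coe_image`); in `cc` the configuration is
`(ω.image j).erase s(φ b.1, φ b.2) = (ω.erase s(b.1, b.2)).image j`.
-/

set_option autoImplicit false

noncomputable section

open Finset
open scoped Classical

namespace IPC.T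

variable {V V' : Type} [DecidableEq V] [DecidableEq V']

theorem off_image {ω : Finset (Sym2 V)} {A : Set V} {φ : V → V'} (hφ : Function.Injective φ) :
    off (ω.image (Sym2.map φ)) (φ '' A) = (off ω A).image (Sym2.map φ) := by
  apply Finset.ext
  intro e'
  unfold off
  rw [Finset.mem_filter, Finset.mem_image, Finset.mem_image]
  constructor
  · rintro ⟨⟨e, he, rfl⟩, h⟩
    refine ⟨e, Finset.mem_filter.2 ⟨he, fun a ha haA => ?_⟩, rfl⟩
    exact h (φ a) (Sym2.mem_map.2 ⟨a, ha, rfl⟩) ⟨a, haA, rfl⟩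
  · rintro ⟨e, he, rfl⟩
    rw [Finset.mem_filter] at he
    refine ⟨⟨e, he.1, rfl⟩, fun b hb hbA => ?_⟩
    obtain ⟨a, ha, rfl⟩ := Sym2.mem_map.1 hb
    exact he.2 a ha (hφ.mem_set_image.1 hbA)

theorem ConnOff_image {ω : Finset (Sym2 V)} {A : Set V} {φ : V → V'} (hφ : Function.Injective φ)
    {x y : V} : ConnOff (ω.image (Sym2.map φ)) (φ '' A) (φ x) (φ y) ↔ ConnOff ω A x y := by
  unfold ConnOff
  rw [off_image hφ, Conn_image φ hφ, hφ.mem_set_image]

theorem AllConn_image {ω : Finset (Sym2 V)} {φ : V → V'} (hφ : Function.Injective φ)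
    {F : Finset V} {y : V} :
    AllConn (ω.image (Sym2.map φ)) (F.image φ) (φ y) ↔ AllConn ω F y := by
  constructor
  · intro h f hf
    exact (Conn_image φ hφ ω f y).1 (h (φ f) (Finset.mem_image_of_mem φ hf))
  · intro h f hf
    obtain ⟨f', hf', rfl⟩ := Finset.mem_image.1 hf
    exact (Conn_image φ hφ ω f' y).2 (h f' hf')

theorem Thru_image {ω : Finset (Sym2 V)} {A : Set V} {φ : V → V'} (hφ : Function.Injective φ)
    {F : Finset V} {y : V} :
    Thru (ω.image (Sym2.map φ)) (φ '' A) (F.image φ) (φ y) ↔ Thru ω A F y := by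
  unfold Thru
  rw [AllConn_image hφ]
  refine and_congr_right fun _ => ?_
  constructor
  · intro h f hf hc
    exact h (φ f) (Finset.mem_image_of_mem φ hf) ((ConnOff_image hφ).2 hc)
  · intro h f hf hc
    obtain ⟨f', hf', rfl⟩ := Finset.mem_image.1 hf
    exact h f' hf' ((ConnOff_image hφ).1 hc)

private theorem inv_erase {ω : Finset (Sym2 V)} {φ : V → V'} (hφ : Function.Injective φ)
    (a b : V) : (ω.image (Sym2.map φ)).erase s(φ a, φ b) = (ω.erase s(a, b)).image (Sym2.map φ) := by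
  rw [Finset.image_erase (Sym2.map.injective hφ)]
  rfl

theorem EP_image {ω : Finset (Sym2 V)} {A : Set V} {φ : V → V'} (hφ : Function.Injective φ)
    {F : Finset V} {u : V} :
    EP (ω.image (Sym2.map φ)) (φ '' A) (F.image φ) (φ u) ↔ EP ω A F u := by
  have key : ∀ z z', (φ z ∈ Cl ((ω.image (Sym2.map φ)).erase s(φ z, φ z')) (F.image φ) →
      φ u ∉ Cl ((ω.image (Sym2.map φ)).erase s(φ z, φ z')) (F.image φ) →
      ¬ Thru ((ω.image (Sym2.map φ)).erase s(φ z, φ z')) (φ '' A) (F.image φ) (φ z)) ↔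
      (z ∈ Cl (ω.erase s(z, z')) F → u ∉ Cl (ω.erase s(z, z')) F →
        ¬ Thru (ω.erase s(z, z')) A F z) := by
    intro z z'
    rw [inv_erase hφ, Cl_image hφ, Thru_image hφ, hφ.mem_set_image, hφ.mem_set_image]
  unfold EP
  rw [Thru_image hφ]
  refine and_congr_right fun _ => ?_
  constructor
  · intro h z z' hz
    exact (key z z').1 (h (φ z) (φ z') (Finset.mem_image.2 ⟨s(z, z'), hz, rfl⟩))
  · intro h y y' hy
    have h1 : ∃ z z', y = φ z ∧ y' = φ z' ∧ s(z, z') ∈ ω := by
      obtain ⟨e, he, h2⟩ := Finset.mem_image.1 hy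
      induction e using Sym2.ind with
      | _ c d =>
        rw [Sym2.map_mk] at h2
        rcases Sym2.eq_iff.1 h2 with ⟨h3, h4⟩ | ⟨h3, h4⟩
        · exact ⟨c, d, h3.symm, h4.symm, he⟩
        · refine ⟨d, c, h4.symm, h3.symm, ?_⟩
          rw [Sym2.eq_swap]
          exact he
    obtain ⟨z, z', rfl, rfl, hz⟩ := h1
    exact (key z z').2 (h z z' hz)

variable (G : PG V) (G' : PG V')

private theorem inv_Cl {ω : Finset (Sym2 V)} {φ : V → V'} (hφ : Function.Injective φ)
    (F S : Finset V) : Cl (ω.image (Sym2.map φ)) (F.image φ) = ((S.image φ : Finset V') : Set V') ↔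
      Cl ω F = (S : Set V) := by
  rw [Cl_image hφ, Finset.coe_image]
  exact (Set.image_injective.2 hφ).eq_iff

/-- the coefficients of the expansion are invariant -/
theorem cc_iso (p : ℝ) (φ : V ≃ V') (hnb : ∀ a b, b ∈ G.nb a ↔ φ b ∈ G'.nb (φ a)) (F : Finset V)
    (A : Set V) (b : V × V) (S : Finset V) :
    G'.cc p (F.image φ) (φ '' A) (φ b.1, φ b.2) (S.image φ) = G.cc p F A b S := by
  unfold PG.cc
  rw [touch_iso G G' φ hnb, Pr_map p _ (Sym2.map.injective φ.injective)]
  congr 1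
  refine Pr_congr p _ fun ω _ => ?_
  rw [EP_image φ.injective]
  show EP ω A F b.1 ∧ Cl ((ω.image (Sym2.map φ)).erase s(φ b.1, φ b.2)) (F.image φ) =
    ((S.image φ : Finset V') : Set V') ↔ _
  rw [inv_erase φ.injective, inv_Cl φ.injective]

theorem ec_iso (p : ℝ) (φ : V ≃ V') (hnb : ∀ a b, b ∈ G.nb a ↔ φ b ∈ G'.nb (φ a)) (F : Finset V)
    (A : Set V) (u : V) (S : Finset V) :
    G'.ec p (F.image φ) (φ '' A) (φ u) (S.image φ) = G.ec p F A u S := by
  unfold PG.ec
  rw [touch_iso G G' φ hnb, Pr_map p _ (Sym2.map.injective φ.injective)]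
  refine Pr_congr p _ fun ω _ => ?_
  rw [EP_image φ.injective, inv_Cl φ.injective]

end IPC.T
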