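import Pool.Agent.Lib.MP_25e40f_pr.T.Ein
import Pool.Agent.Lib.MP_25e40f_pr.A.Har

/-!
# Stream T, job TauD: the two point function in finite domains (about 130 lines)

`tauD p D x y = Pr p (ein D) (Conn · x y)`.  Bounds: `Pr_nonneg`, `Pr_le_one`.  `tauD_self`: `Pr_true`.  `tauD_symm`: `Pr_congr`, `Conn_symm`.  `tauD_mono_D`: `Pr_mono_E`, `ein_mono`, `Conn_inc`.  `tauD_mono_p`: `Pr_mono_p`.
`tauD_eq_zero`: `x ∉ D`, `x ≠ y`: `Pr_false`, `Conn_mem_ein`.  `tauD_nb`: the event contains `s(x, y) ∈ ω`; `Pr p E (b ∈ ω) = p` for `b ∈ E`: `Pr_open` with `A = True`, `Pr_true`.  `tauD_trans`: `harris` and `Pr_mono` (`Conn_trans`).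
`tauD_Ln`: `E₁ = ein S ⊆ ein D`: `Pr_restrict` for the event `Ln (ein S) x y` (depends only on `ω ∩ ein S`), then `Pr_congr` (`ω ⊆ ein S`: `ω ∩ ein S = ω`).
`tauD_off`: for `ω ⊆ ein D`: `off ω S = ω ∩ ein (D \ S)` (`off_inter`, `off_ein`, or membership), so the event is `Conn (ω ∩ ein (D \ S)) x y`; as `tauD_Ln` with `S := D \ S`.  `tauD_off_set` the same with `D.filter (· ∉ A)` (`off_ein_set`).
`connOff_split`: `off ω A = off ω (A ∩ D)` for `ω ⊆ ein D`.
`allConn_harris`: `Finset.induction_on F` with `harris` and `AllConn_inc`: `AllConn ω (insert f F) y ↔ Conn ω f y ∧ AllConn ω F y`.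
`allConn_le`: `Pr_mono`.  `tauD_isolated`: not needed.
`thru_eq`: for one point: `Thru ω A {x} y ↔ Conn ω x y ∧ ¬ ConnOff ω A x y` (`Finset.mem_singleton`), and `ConnOff → Conn`, so `Pr (Thru) = tauD - Pr (ConnOff)` (`Pr_split`).
-/

set_option autoImplicit false

noncomputable section

open Finset
open scoped Classical

namespace IPC.T

variable {V : Type} [DecidableEq V] (G : PG V)

theorem Pr_mem {ε : Type} [DecidableEq ε] (p : ℝ) {E : Finset ε} {b : ε} (hb : b ∈ E) :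
    Pr p E (fun ω => b ∈ ω) = p := by
  have h := Pr_open p hb (fun _ : Finset ε => True)
  rw [Pr_true p (E.erase b) (fun _ _ => trivial), mul_one] at h
  exact (Pr_congr p E fun ω _ => ⟨fun h => ⟨h, trivial⟩, fun h => h.1⟩ : _ = _).trans h

theorem tauD_nonneg {p : ℝ} (h0 : 0 ≤ p) (h1 : p ≤ 1) (D : Finset V) (x y : V) :
    0 ≤ G.tauD p D x y := by
  exact Pr_nonneg h0 h1 _ _

theorem tauD_le_one {p : ℝ} (h0 : 0 ≤ p) (h1 : p ≤ 1) (D : Finset V) (x y : V) :
    G.tauD p D x y ≤ 1 := by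
  exact Pr_le_one h0 h1 _ _

theorem tauD_self (p : ℝ) (D : Finset V) (x : V) : G.tauD p D x x = 1 := by
  exact Pr_true p _ fun ω _ => Conn_refl ω x

theorem tauD_symm (p : ℝ) (D : Finset V) (x y : V) : G.tauD p D x y = G.tauD p D y x := by
  exact Pr_congr p _ fun ω _ => ⟨Conn_symm, Conn_symm⟩

theorem tauD_mono_D {p : ℝ} (h0 : 0 ≤ p) (h1 : p ≤ 1) {D D' : Finset V} (h : D ⊆ D') (x y : V) :
    G.tauD p D x y ≤ G.tauD p D' x y := by
  exact Pr_mono_E h0 h1 (ein_mono G h) (Conn_inc x y)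

theorem tauD_mono_p {p q : ℝ} (h0 : 0 ≤ p) (hpq : p ≤ q) (h1 : q ≤ 1) (D : Finset V) (x y : V) :
    G.tauD p D x y ≤ G.tauD q D x y := by
  exact Pr_mono_p h0 hpq h1 _ (Conn_inc x y)

theorem tauD_continuous (D : Finset V) (x y : V) : Continuous fun p : ℝ => G.tauD p D x y := by
  exact Pr_continuous (G.ein D) (fun ω => Conn ω x y)

theorem tauD_eq_zero (p : ℝ) {D : Finset V} {x y : V} (hx : x ∉ D) (hne : x ≠ y) :
    G.tauD p D x y = 0 := by
  exact Pr_false p _ fun ω hω h => hx (Conn_mem_ein G hω h hne).1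

theorem tauD_nb {p : ℝ} (h0 : 0 ≤ p) (h1 : p ≤ 1) {D : Finset V} {x y : V} (hx : x ∈ D) (hy : y ∈ D)
    (h : y ∈ G.nb x) : p ≤ G.tauD p D x y := by
  have h2 : s(x, y) ∈ G.ein D := (mem_ein G).2 ⟨h, hx, hy⟩
  calc p = Pr p (G.ein D) (fun ω => s(x, y) ∈ ω) := (Pr_mem p h2).symm
    _ ≤ G.tauD p D x y := Pr_mono h0 h1 _ fun ω _ hω => Conn_edge hω

theorem tauD_trans {p : ℝ} (h0 : 0 ≤ p) (h1 : p ≤ 1) (D : Finset V) (x y z : V) :
    G.tauD p D x y * G.tauD p D y z ≤ G.tauD p D x z := by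
  exact (harris h0 h1 (G.ein D) (fun ω => Conn ω x y) (fun ω => Conn ω y z) (Conn_inc x y)
    (Conn_inc y z)).trans (Pr_mono h0 h1 _ fun ω _ hω => Conn_trans hω.1 hω.2)

theorem tauD_Ln (p : ℝ) {S D : Finset V} (h : S ⊆ D) (x y : V) :
    Pr p (G.ein D) (Ln (G.ein S) x y) = G.tauD p S x y := by
  rw [Pr_restrict p (ein_mono G h) (Ln (G.ein S) x y)]
  · refine Pr_congr p _ fun ω hω => ?_
    unfold Ln
    rw [Finset.inter_eq_left.2 hω]
  · intro ω _
    unfold Ln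
    rw [Finset.inter_assoc, Finset.inter_self]

private theorem TauD_off {D : Finset V} {ω : Finset (Sym2 V)} (hω : ω ⊆ G.ein D) (A : Set V) :
    off ω A = ω ∩ G.ein (D.filter fun a => a ∉ A) := by
  ext e
  induction e using Sym2.ind with
  | _ a b =>
    rw [mem_off, Finset.mem_inter, mem_ein, Finset.mem_filter, Finset.mem_filter]
    constructor
    · rintro ⟨h1, h2, h3⟩
      obtain ⟨h4, h5, h6⟩ := (mem_ein G).1 (hω h1)
      exact ⟨h1, h4, ⟨h5, h2⟩, ⟨h6, h3⟩⟩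
    · rintro ⟨h1, _, ⟨_, h2⟩, ⟨_, h3⟩⟩
      exact ⟨h1, h2, h3⟩

private theorem TauD_off_set (p : ℝ) (D : Finset V) (A : Set V) {x y : V} (hx : x ∉ A) :
    Pr p (G.ein D) (fun ω => ConnOff ω A x y) = G.tauD p (D.filter fun a => a ∉ A) x y := by
  rw [← tauD_Ln G p (Finset.filter_subset (fun a => a ∉ A) D) x y]
  refine Pr_congr p _ fun ω hω => ?_
  unfold ConnOff Ln
  rw [TauD_off G hω A]
  exact ⟨fun h => h.2, fun h => ⟨hx, h⟩⟩

theorem tauD_off (p : ℝ) (D S : Finset V) {x y : V} (hx : x ∉ S) :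
    Pr p (G.ein D) (fun ω => ConnOff ω (S : Set V) x y) = G.tauD p (D \ S) x y := by
  refine (TauD_off_set G p D (S : Set V) (fun h => hx (Finset.mem_coe.1 h))).trans
    (congrArg (fun T => G.tauD p T x y) ?_)
  ext a
  simp only [Finset.mem_filter, Finset.mem_sdiff, Finset.mem_coe]

theorem tauD_off_set (p : ℝ) (D : Finset V) (A : Set V) {x y : V} (hx : x ∉ A) :
    Pr p (G.ein D) (fun ω => ConnOff ω A x y) = G.tauD p (D.filter fun a => a ∉ A) x y := by
  exact TauD_off_set G p D A hx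

theorem allConn_harris {p : ℝ} (h0 : 0 ≤ p) (h1 : p ≤ 1) (D : Finset V) (F : Finset V) (y : V) :
    ∏ f ∈ F, G.tauD p D f y ≤ Pr p (G.ein D) (fun ω => AllConn ω F y) := by
  induction F using Finset.induction_on with
  | empty =>
    rw [Finset.prod_empty, Pr_true p _ (fun ω _ f hf => absurd hf (Finset.notMem_empty f))]
  | insert a F ha ih =>
    rw [Finset.prod_insert ha]
    have h2 := harris h0 h1 (G.ein D) (fun ω => Conn ω a y) (fun ω => AllConn ω F y) (Conn_inc a y)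
      (AllConn_inc F y)
    refine (mul_le_mul_of_nonneg_left ih (Pr_nonneg h0 h1 (G.ein D) (fun ω => Conn ω a y))).trans
      (h2.trans (Pr_mono h0 h1 _ fun ω _ hω f hf => ?_))
    rcases Finset.mem_insert.1 hf with rfl | hf
    · exact hω.1
    · exact hω.2 f hf

theorem allConn_le {p : ℝ} (h0 : 0 ≤ p) (h1 : p ≤ 1) (D : Finset V) {F : Finset V} {f : V}
    (hf : f ∈ F) (y : V) : Pr p (G.ein D) (fun ω => AllConn ω F y) ≤ G.tauD p D f y := by
  exact Pr_mono h0 h1 _ fun ω _ hω => hω f hf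

theorem allConn_single (p : ℝ) (D : Finset V) (x y : V) :
    Pr p (G.ein D) (fun ω => AllConn ω {x} y) = G.tauD p D x y := by
  refine Pr_congr p _ fun ω _ => ?_
  unfold AllConn
  constructor
  · exact fun h => h x (Finset.mem_singleton_self x)
  · intro h f hf
    rw [Finset.mem_singleton.1 hf]
    exact h

theorem thru_single (p : ℝ) (D : Finset V) (A : Set V) (x y : V) :
    Pr p (G.ein D) (fun ω => Thru ω A {x} y) =
      G.tauD p D x y - Pr p (G.ein D) (fun ω => ConnOff ω A x y) := by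
  have h1 := Pr_split p (G.ein D) (fun ω => Conn ω x y) (fun ω => ConnOff ω A x y)
  have h2 : Pr p (G.ein D) (fun ω => Conn ω x y ∧ ConnOff ω A x y) =
      Pr p (G.ein D) (fun ω => ConnOff ω A x y) :=
    Pr_congr p _ fun ω _ => ⟨fun h => h.2, fun h => ⟨ConnOff_conn h, h⟩⟩
  have h3 : Pr p (G.ein D) (fun ω => Thru ω A {x} y) =
      Pr p (G.ein D) (fun ω => Conn ω x y ∧ ¬ ConnOff ω A x y) := by
    refine Pr_congr p _ fun ω _ => ?_
    unfold Thru AllConn
    constructor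
    · rintro ⟨h4, h5⟩
      exact ⟨h4 x (Finset.mem_singleton_self x), h5 x (Finset.mem_singleton_self x)⟩
    · rintro ⟨h4, h5⟩
      refine ⟨fun f hf => ?_, fun f hf => ?_⟩
      · rw [Finset.mem_singleton.1 hf]; exact h4
      · rw [Finset.mem_singleton.1 hf]; exact h5
  unfold PG.tauD
  rw [h3, h1, h2]
  ring

end IPC.T
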