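import Pool.Agent.Lib.MP_25e40f_pr.T.Arm

/-!
# Stream T, job Hs: the infinite volume versions of `AllConn` and `ConnOff` (about 130 lines)

`sp G p (AllConn · F y)` and `sp G p (ConnOff · A x y)`; both events are increasing (`AllConn_inc`, `ConnOff_inc`).
`sp_connOff_eq`: for `A` finite (`A = S`) and `x ∉ S`: `tauD_off`.
`sp_off_le_tau`: `ConnOff → Conn`.
`spH_nonneg`, `spH_le`: `H = tau - sp (ConnOff)`, in `[0, tau]`.
`sp_off_univ`: `ConnOff ω univ x y` is false.  `sp_off_empty`: `ConnOff ω ∅ x y ↔ Conn ω x y` (`off_empty`).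
`thru_tendsto`: for one point `Pr p (ein (Lam r)) (Thru · A {x} y) = tauD - Pr (ConnOff)` (`thru_single`) converges to `tau p x y - sp (ConnOff)`.
`thru_univ_tendsto`: `Thru ω univ F y ↔ AllConn ω F y` (`ConnOff ω univ` is false).
`connOff_diff`: as `tauD_diff` : for `D ⊇ Lam (r + 1)`, `x ∈ Lam r`: `Pr p (ein D) (ConnOff · A x y) - Pr p (ein (Lam (r + 1))) (ConnOff · A x y) ≤ arm p x r`: `tauD_off_set` turns both into `tauD p (D.filter ..) x y`; or directly: if `ConnOff ω A x y`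
but not `ConnOff (ω ∩ ein (Lam (r+1))) A x y` then (`stay_or_exit` for `off ω A`, `X = Lam r`) `x` is connected to `Lam (r + 1) \ Lam r` in `ω ∩ ein (Lam (r + 1))`; then as `arm_ge`.
`thru_diff`: `|Pr p (ein D) (Thru · A {x} y) - (tau p x y - sp (ConnOff))| ≤ 2 arm p x r` for `D ⊇ Lam (r + 1)`: from `tauD_diff`, `tau_diff`, `connOff_diff` and its limit, monotonicity.
`allConn_sp_diff`: `sp (AllConn F y) - Pr p (ein D) (AllConn F y) ≤ ∑_{f ∈ F} arm p f r`, `0 ≤`: `allConn_diff` and the limit.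
-/

set_option autoImplicit false

noncomputable section

open Finset
open scoped Classical

namespace IPC.T

variable {V : Type} [DecidableEq V] (G : PG V)

theorem sp_off_le_tau {p : ℝ} (h0 : 0 ≤ p) (h1 : p ≤ 1) (A : Set V) (x y : V) :
    sp G p (fun ω => ConnOff ω A x y) ≤ G.tau p x y := by
  rw [tau_eq_sp]
  exact sp_mono G h0 h1 (fun ω h => ConnOff_conn h)

theorem sp_off_univ (p : ℝ) (x y : V) : sp G p (fun ω => ConnOff ω Set.univ x y) = 0 := by
  have h : ∀ r, Pr p (G.ein (G.Lam r)) (fun ω => ConnOff ω Set.univ x y) = 0 :=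
    fun r => Pr_false p _ (fun ω _ h => h.1 (Set.mem_univ x))
  unfold sp
  simp only [h, ciSup_const]

theorem sp_off_empty (p : ℝ) (x y : V) : sp G p (fun ω => ConnOff ω ∅ x y) = G.tau p x y := by
  rw [tau_eq_sp]
  refine sp_congr G p (fun ω => ?_)
  unfold ConnOff
  rw [off_empty]
  simp

theorem sp_allConn_single (p : ℝ) (x y : V) :
    sp G p (fun ω => AllConn ω {x} y) = G.tau p x y := by
  rw [tau_eq_sp]
  refine sp_congr G p (fun ω => ?_)
  unfold AllConn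
  simp

theorem sp_allConn_le {p : ℝ} (h0 : 0 ≤ p) (h1 : p ≤ 1) {F : Finset V} {f : V} (hf : f ∈ F) (y : V) :
    sp G p (fun ω => AllConn ω F y) ≤ G.tau p f y := by
  rw [tau_eq_sp]
  exact sp_mono G h0 h1 (fun ω h => h f hf)

theorem thru_univ_iff {ω : Finset (Sym2 V)} {F : Finset V} {y : V} :
    Thru ω Set.univ F y ↔ AllConn ω F y := by
  unfold Thru
  exact ⟨fun h => h.1, fun h => ⟨h, fun f _ h' => h'.1 (Set.mem_univ f)⟩⟩

theorem thru_tendsto {p : ℝ} (h0 : 0 ≤ p) (h1 : p ≤ 1) (A : Set V) (x y : V) :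
    Filter.Tendsto (fun r => Pr p (G.ein (G.Lam r)) (fun ω => Thru ω A {x} y)) Filter.atTop
      (nhds (G.tau p x y - sp G p (fun ω => ConnOff ω A x y))) := by
  simp only [thru_single]
  exact (tau_tendsto G h0 h1 x y).sub (sp_tendsto G h0 h1 (ConnOff_inc A x y))

theorem connOff_diff {p : ℝ} (h0 : 0 ≤ p) (h1 : p ≤ 1) {D : Finset V} {r : ℕ}
    (hD : G.Lam (r + 1) ⊆ D) (A : Set V) {x : V} (hx : x ∈ G.Lam r) (y : V) :
    Pr p (G.ein D) (fun ω => ConnOff ω A x y) -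
      Pr p (G.ein (G.Lam (r + 1))) (fun ω => ConnOff ω A x y) ≤ G.arm p x r := by
  set E₁ := G.ein (G.Lam (r + 1)) with hE₁
  have hE : E₁ ⊆ G.ein D := ein_mono G hD
  have e1 : Pr p E₁ (fun ω => ConnOff ω A x y) = Pr p (G.ein D) (fun ω => ConnOff (ω ∩ E₁) A x y) := by
    rw [Pr_restrict p hE (fun ω => ConnOff (ω ∩ E₁) A x y) (fun ω _ => by
      show ConnOff (ω ∩ E₁) A x y ↔ ConnOff (ω ∩ E₁ ∩ E₁) A x y
      rw [Finset.inter_assoc, Finset.inter_self])]
    refine Pr_congr p E₁ (fun ω hω => ?_)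
    rw [Finset.inter_eq_left.2 hω]
  have e2 := Pr_split p (G.ein D) (fun ω => ConnOff ω A x y) (fun ω => ConnOff (ω ∩ E₁) A x y)
  have e3 : Pr p (G.ein D) (fun ω => ConnOff ω A x y ∧ ConnOff (ω ∩ E₁) A x y) ≤
      Pr p (G.ein D) (fun ω => ConnOff (ω ∩ E₁) A x y) := Pr_mono h0 h1 _ (fun ω _ h => h.2)
  have e4 : Pr p (G.ein D) (fun ω => ConnOff ω A x y ∧ ¬ ConnOff (ω ∩ E₁) A x y) ≤
      Pr p (G.ein D) (fun ω => ∃ v ∈ {v : V | v ∉ G.Lam r}, Conn ω x v) := by
    refine Pr_mono h0 h1 _ (fun ω hω h => ?_)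
    obtain ⟨⟨hxA, hc⟩, hn⟩ := h
    rcases stay_or_exit (X := (G.Lam r : Set V)) hx hc with ⟨_, h2⟩ | ⟨s, _, t, ht, hst, h2⟩
    · exfalso
      apply hn
      refine ⟨hxA, Conn_mono ?_ h2⟩
      intro e
      induction e using Sym2.ind with
      | _ a b =>
        intro he
        rw [Finset.mem_filter] at he
        obtain ⟨h3, h4⟩ := he
        rw [mem_off] at h3 ⊢
        have h5 := (mem_ein G).1 (hω h3.1)
        have ha : a ∈ G.Lam r := h4 a (Sym2.mem_mk_left a b)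
        have hb : b ∈ G.Lam r := h4 b (Sym2.mem_mk_right a b)
        refine ⟨Finset.mem_inter.2 ⟨h3.1, ?_⟩, h3.2⟩
        rw [hE₁, mem_ein]
        exact ⟨h5.1, G.mono r ha, G.mono r hb⟩
    · refine ⟨t, ht, Conn_trans (Conn_mono ?_ h2) (Conn_edge (off_subset ω A hst))⟩
      exact (Finset.filter_subset _ _).trans (off_subset ω A)
  have e5 := arm_ge G h0 h1 D hx (T := {v : V | v ∉ G.Lam r}) (fun v hv => hv)
  linarith

theorem thru_diff {p : ℝ} (h0 : 0 ≤ p) (h1 : p ≤ 1) {D : Finset V} {r : ℕ}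
    (hD : G.Lam (r + 1) ⊆ D) (A : Set V) {x : V} (hx : x ∈ G.Lam r) (y : V) :
    |Pr p (G.ein D) (fun ω => Thru ω A {x} y) -
      (G.tau p x y - sp G p (fun ω => ConnOff ω A x y))| ≤ 2 * G.arm p x r := by
  rw [thru_single]
  have a1 := tauD_le_tau G h0 h1 D x y
  have a2 := tau_diff G h0 h1 hx y
  have a3 := tauD_mono_D G h0 h1 hD x y
  have b1 := Pr_le_sp G h0 h1 (ConnOff_inc A x y) D
  have b2 : sp G p (fun ω => ConnOff ω A x y) ≤
      Pr p (G.ein (G.Lam (r + 1))) (fun ω => ConnOff ω A x y) + G.arm p x r := by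
    refine le_of_tendsto (sp_tendsto G h0 h1 (ConnOff_inc A x y)) ?_
    filter_upwards [Filter.eventually_ge_atTop (r + 1)] with s hs
    have := connOff_diff G h0 h1 (Lam_mono G hs) A hx y
    linarith
  have b3 : Pr p (G.ein (G.Lam (r + 1))) (fun ω => ConnOff ω A x y) ≤
      Pr p (G.ein D) (fun ω => ConnOff ω A x y) := Pr_mono_E h0 h1 (ein_mono G hD) (ConnOff_inc A x y)
  have c := arm_nonneg G h0 h1 x r
  rw [abs_le]
  constructor <;> linarith

theorem allConn_sp_diff {p : ℝ} (h0 : 0 ≤ p) (h1 : p ≤ 1) {D : Finset V} {r : ℕ}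
    (hD : G.Lam (r + 1) ⊆ D) {F : Finset V} (hF : F ⊆ G.Lam r) (y : V) :
    0 ≤ sp G p (fun ω => AllConn ω F y) - Pr p (G.ein D) (fun ω => AllConn ω F y) ∧
    sp G p (fun ω => AllConn ω F y) - Pr p (G.ein D) (fun ω => AllConn ω F y) ≤
      ∑ f ∈ F, G.arm p f r := by
  have b1 := Pr_le_sp G h0 h1 (AllConn_inc F y) D
  have b2 : sp G p (fun ω => AllConn ω F y) ≤
      Pr p (G.ein (G.Lam (r + 1))) (fun ω => AllConn ω F y) + ∑ f ∈ F, G.arm p f r := by
    refine le_of_tendsto (sp_tendsto G h0 h1 (AllConn_inc F y)) ?_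
    filter_upwards [Filter.eventually_ge_atTop (r + 1)] with s hs
    have := allConn_diff G h0 h1 (Lam_mono G hs) hF y
    linarith
  have b3 : Pr p (G.ein (G.Lam (r + 1))) (fun ω => AllConn ω F y) ≤
      Pr p (G.ein D) (fun ω => AllConn ω F y) := Pr_mono_E h0 h1 (ein_mono G hD) (AllConn_inc F y)
  constructor <;> linarith

end IPC.T
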