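import Pool.Agent.Lib.MP_25e40f_pr.T.TauD

/-!
# Stream T, job Pos: positivity of the kernel `τ_D` (about 130 lines)

`Pr_disjoint`: `Pr_restrict` to `E0` (the event depends on `ω ∩ E0`), and for `ω ⊆ E0`: `Disjoint ω E0 ↔ ω = ∅`; by induction on `E0` with `EE_insert`, or: unfold, only the term `ω = ∅` of the sum is not zero.
`cluster_pos`: let `cl x = D.filter (Conn ω x)` and `Q = D.image cl` (a `Finset (Finset V)`): the members are pairwise disjoint with union `D`.  For `x ∈ D`: `∑_{y ∈ D} f y ind (Conn ω x y) = ∑_{y ∈ cl x} f y` (complex valued), and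
`∑_{x ∈ D} g x = ∑_{q ∈ Q} ∑_{x ∈ D, cl x = q} g x` (`Finset.sum_fiberwise_of_maps_to`), `{x ∈ D | cl x = q} = q` for `q ∈ Q`.  So the double sum is the real part of `∑_{q ∈ Q} conj (∑_{x ∈ q} f x) (∑_{y ∈ q} f y)`, that is
`∑_{q ∈ Q} ‖∑_{x ∈ q} f x‖ ^ 2`.  If `x ∈ D` is isolated (`∀ e ∈ ω, x ∉ e`), then `cl x = {x}` (`Conn_mem_VV`, `mem_VV`), and the map `x ↦ {x}` is injective: the sum over these `q` is the left hand side, the others are `≥ 0`.
`tauD_pos`: `EE` of `cluster_pos` (`EE_mono`, `EE_sum`, `EE_const_mul`): the left side becomes `∑ ‖f x‖² Pr (no edge of ω contains x)`, and this probability is `(1-p)^{#{e ∈ ein D | x ∈ e}} ≥ (1 - p)^Δ`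
(`Pr_disjoint` with `E0 = (ein D).filter (x ∈ ·) ⊆ (nb x).image (s(x, ·))`, `Finset.card_image_le`, `pow_le_pow_of_le_one`).
-/

set_option autoImplicit false

noncomputable section

open Finset
open scoped Classical

namespace IPC.T

private theorem Pos_empty {ε : Type} [DecidableEq ε] (p : ℝ) (E : Finset ε) :
    Pr p E (fun ω => ω = ∅) = (1 - p) ^ E.card := by
  induction E using Finset.induction_on with
  | empty =>
    unfold Pr
    rw [EE_empty, ind_of rfl, Finset.card_empty, pow_zero]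
  | insert b E hb ih =>
    unfold Pr at ih ⊢
    rw [EE_insert p hb, Finset.card_insert_of_notMem hb, pow_succ, ih]
    have h0 : EE p E (fun ω => ind (insert b ω = ∅)) = 0 := by
      have h1 : (fun ω : Finset ε => ind (insert b ω = ∅)) = fun _ => 0 := by
        funext ω
        exact ind_not (Finset.insert_ne_empty b ω)
      rw [h1, EE_const]
    rw [h0]
    ring

theorem Pr_disjoint {ε : Type} [DecidableEq ε] (p : ℝ) {E0 E : Finset ε} (h : E0 ⊆ E) :
    Pr p E (fun ω => Disjoint ω E0) = (1 - p) ^ E0.card := by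
  rw [Pr_restrict p h (fun ω => Disjoint ω E0), ← Pos_empty p E0]
  · refine Pr_congr p _ fun ω hω => ?_
    constructor
    · intro h1
      exact h1.eq_bot_of_le hω
    · intro h1
      rw [h1]
      exact Finset.disjoint_empty_left _
  · intro ω _
    rw [Finset.disjoint_iff_inter_eq_empty, Finset.disjoint_iff_inter_eq_empty, Finset.inter_assoc,
      Finset.inter_self]

variable {V : Type} [DecidableEq V]

private theorem Pos_row (ω : Finset (Sym2 V)) (D : Finset V) (f : V → ℂ) (x : V) :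
    ∑ y ∈ D, (star (f x) * f y).re * ind (Conn ω x y) =
      (star (f x) * ∑ y ∈ D.filter (fun y => Conn ω x y), f y).re := by
  rw [Finset.mul_sum, Complex.re_sum, Finset.sum_filter]
  refine Finset.sum_congr rfl fun y _ => ?_
  unfold ind
  split_ifs
  · rw [mul_one]
  · rw [mul_zero]

private theorem Pos_cl {ω : Finset (Sym2 V)} {D : Finset V} {x y : V} (h : Conn ω x y) :
    D.filter (fun z => Conn ω x z) = D.filter (fun z => Conn ω y z) := by
  refine Finset.filter_congr fun z _ => ?_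
  exact ⟨fun h1 => Conn_trans (Conn_symm h) h1, fun h1 => Conn_trans h h1⟩

private theorem Pos_cl_iso {ω : Finset (Sym2 V)} {D : Finset V} {x : V} (hx : x ∈ D)
    (h : ∀ e ∈ ω, x ∉ e) : D.filter (fun z => Conn ω x z) = {x} := by
  ext z
  rw [Finset.mem_filter, Finset.mem_singleton]
  constructor
  · rintro ⟨_, h1⟩
    by_contra hne
    obtain ⟨h2, _⟩ := Conn_mem_VV h1 (fun h3 => hne h3.symm)
    rw [mem_VV] at h2
    obtain ⟨y, hy⟩ := h2
    exact h _ hy (Sym2.mem_mk_left x y)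
  · rintro rfl
    exact ⟨hx, Conn_refl ω _⟩

private theorem Pos_sq (z : ℂ) : (star z * z).re = ‖z‖ ^ 2 := by
  have h : star z * z = ((Complex.normSq z : ℝ) : ℂ) := by
    rw [Complex.normSq_eq_conj_mul_self]
    rfl
  rw [h, Complex.ofReal_re, Complex.normSq_eq_norm_sq]

private theorem Pos_total (ω : Finset (Sym2 V)) (D : Finset V) (f : V → ℂ) :
    ∑ x ∈ D, ∑ y ∈ D, (star (f x) * f y).re * ind (Conn ω x y) =
      ∑ q ∈ D.image (fun x => D.filter (fun z => Conn ω x z)), ‖∑ y ∈ q, f y‖ ^ 2 := by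
  rw [Finset.sum_congr rfl (fun x _ => Pos_row ω D f x),
    ← Finset.sum_fiberwise_of_maps_to (t := D.image (fun x => D.filter (fun z => Conn ω x z)))
      (g := fun x => D.filter (fun z => Conn ω x z)) (fun x hx => Finset.mem_image_of_mem _ hx)]
  refine Finset.sum_congr rfl fun q hq => ?_
  have hfib : D.filter (fun x => D.filter (fun z => Conn ω x z) = q) = q := by
    obtain ⟨x0, hx0, rfl⟩ := Finset.mem_image.1 hq
    ext x
    rw [Finset.mem_filter, Finset.mem_filter]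
    constructor
    · rintro ⟨h1, h2⟩
      refine ⟨h1, ?_⟩
      have h3 : x ∈ D.filter (fun z => Conn ω x z) := Finset.mem_filter.2 ⟨h1, Conn_refl ω x⟩
      rw [h2] at h3
      exact (Finset.mem_filter.1 h3).2
    · rintro ⟨h1, h2⟩
      exact ⟨h1, (Pos_cl h2).symm⟩
  have hcong : ∑ x ∈ D.filter (fun x => D.filter (fun z => Conn ω x z) = q),
      (star (f x) * ∑ y ∈ D.filter (fun z => Conn ω x z), f y).re =
      ∑ x ∈ D.filter (fun x => D.filter (fun z => Conn ω x z) = q),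
      (star (f x) * ∑ y ∈ q, f y).re := by
    refine Finset.sum_congr rfl fun x hx => ?_
    rw [(Finset.mem_filter.1 hx).2]
  rw [hcong, hfib, ← Complex.re_sum, ← Finset.sum_mul, ← Pos_sq]
  rw [star_sum]

theorem cluster_pos (ω : Finset (Sym2 V)) (D : Finset V) (f : V → ℂ) :
    ∑ x ∈ D, ‖f x‖ ^ 2 * ind (∀ e ∈ ω, x ∉ e) ≤
      ∑ x ∈ D, ∑ y ∈ D, (star (f x) * f y).re * ind (Conn ω x y) := by
  rw [Pos_total]
  have h1 : ∑ x ∈ D, ‖f x‖ ^ 2 * ind (∀ e ∈ ω, x ∉ e) =
      ∑ x ∈ D.filter (fun x => ∀ e ∈ ω, x ∉ e), ‖∑ y ∈ D.filter (fun z => Conn ω x z), f y‖ ^ 2 := by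
    rw [Finset.sum_filter]
    refine Finset.sum_congr rfl fun x hx => ?_
    unfold ind
    split_ifs with h
    · rw [Pos_cl_iso hx h, Finset.sum_singleton, mul_one]
    · rw [mul_zero]
  rw [h1]
  have hinj : Set.InjOn (fun x => D.filter (fun z => Conn ω x z))
      (D.filter (fun x => ∀ e ∈ ω, x ∉ e) : Set V) := by
    intro x hx y hy hxy
    rw [Finset.mem_coe, Finset.mem_filter] at hx hy
    simp only at hxy
    rw [Pos_cl_iso hx.1 hx.2, Pos_cl_iso hy.1 hy.2] at hxy
    exact Finset.singleton_injective hxy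
  rw [← Finset.sum_image (f := fun q : Finset V => ‖∑ y ∈ q, f y‖ ^ 2) hinj]
  refine Finset.sum_le_sum_of_subset_of_nonneg ?_ fun q _ _ => by positivity
  exact Finset.image_subset_image (Finset.filter_subset _ _)

private theorem Pos_iso (G : PG V) {p : ℝ} (h0 : 0 ≤ p) (h1 : p ≤ 1) {Δ : ℕ} (D : Finset V) {x : V}
    (hΔ : (G.nb x).card ≤ Δ) :
    (1 - p) ^ Δ ≤ Pr p (G.ein D) (fun ω => ∀ e ∈ ω, x ∉ e) := by
  have hE : (G.ein D).filter (fun e => x ∈ e) ⊆ (G.nb x).image (fun y => s(x, y)) := by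
    intro e he
    induction e using Sym2.ind with
    | _ a b =>
      rw [Finset.mem_filter, mem_ein, Sym2.mem_iff] at he
      obtain ⟨⟨h2, _, _⟩, h3 | h3⟩ := he
      · subst h3
        exact Finset.mem_image_of_mem _ h2
      · subst h3
        rw [Sym2.eq_swap]
        exact Finset.mem_image_of_mem _ ((nb_comm G).1 h2)
  have hc : ((G.ein D).filter (fun e => x ∈ e)).card ≤ Δ :=
    ((Finset.card_le_card hE).trans Finset.card_image_le).trans hΔ
  have h2 : Pr p (G.ein D) (fun ω => ∀ e ∈ ω, x ∉ e) =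
      Pr p (G.ein D) (fun ω => Disjoint ω ((G.ein D).filter (fun e => x ∈ e))) := by
    refine Pr_congr p _ fun ω hω => ?_
    rw [Finset.disjoint_left]
    constructor
    · intro h3 e he he'
      exact h3 e he (Finset.mem_filter.1 he').2
    · intro h3 e he hx
      exact h3 he (Finset.mem_filter.2 ⟨hω he, hx⟩)
  rw [h2, Pr_disjoint p (Finset.filter_subset _ _)]
  exact pow_le_pow_of_le_one (by linarith) (by linarith) hc

theorem tauD_pos (G : PG V) {p : ℝ} (h0 : 0 ≤ p) (h1 : p ≤ 1) {Δ : ℕ} (D : Finset V)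
    (hΔ : ∀ x ∈ D, (G.nb x).card ≤ Δ) (f : V → ℂ) :
    (1 - p) ^ Δ * ∑ x ∈ D, ‖f x‖ ^ 2 ≤
      ∑ x ∈ D, ∑ y ∈ D, (star (f x) * f y).re * G.tauD p D x y := by
  have hR : ∑ x ∈ D, ∑ y ∈ D, (star (f x) * f y).re * G.tauD p D x y =
      EE p (G.ein D) (fun ω => ∑ x ∈ D, ∑ y ∈ D, (star (f x) * f y).re * ind (Conn ω x y)) := by
    rw [EE_sum]
    refine Finset.sum_congr rfl fun x _ => ?_
    rw [EE_sum]
    refine Finset.sum_congr rfl fun y _ => ?_
    rw [EE_const_mul]
    rfl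
  have hL : ∑ x ∈ D, ‖f x‖ ^ 2 * Pr p (G.ein D) (fun ω => ∀ e ∈ ω, x ∉ e) =
      EE p (G.ein D) (fun ω => ∑ x ∈ D, ‖f x‖ ^ 2 * ind (∀ e ∈ ω, x ∉ e)) := by
    rw [EE_sum]
    refine Finset.sum_congr rfl fun x _ => ?_
    rw [EE_const_mul]
    rfl
  have h3 : EE p (G.ein D) (fun ω => ∑ x ∈ D, ‖f x‖ ^ 2 * ind (∀ e ∈ ω, x ∉ e)) ≤
      EE p (G.ein D) (fun ω => ∑ x ∈ D, ∑ y ∈ D, (star (f x) * f y).re * ind (Conn ω x y)) :=
    EE_mono h0 h1 _ fun ω _ => cluster_pos ω D f
  rw [hR]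
  refine le_trans ?_ h3
  rw [← hL, Finset.mul_sum]
  refine Finset.sum_le_sum fun x hx => ?_
  rw [mul_comm]
  exact mul_le_mul_of_nonneg_left (Pos_iso G h0 h1 D (hΔ x hx)) (by positivity)

end IPC.T
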