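import Pool.Agent.Lib.MP_25e40f_pr.A.Trl
import Pool.Agent.Lib.MP_25e40f_pr.A.Har

/-!
# Stream T, job Off: connections off a set, clusters (about 120 lines)

Conventions: namespace `IPC.T`.  From stream A: `Conn_refl`, `Conn_symm`, `Conn_trans`, `Conn_edge`, `Conn_mono`, `Conn_mem_VV`, `mem_VV`, `Conn_closed`, `Conn_exit_edge`.
`mem_off`: unfold `off`, `Finset.mem_filter`, `Sym2.mem_iff`.  `ConnOff_notMem`: tail induction (`Relation.ReflTransGen.head_induction_on` or `induction h with`) on `Conn (off ω A) x y` with the claim `y ∉ A` (`mem_off`), start `x ∉ A`.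
`*_inc`: `off_mono`, `Conn_mono`.
`ConnOff_iff`: `Conn ω x y ∧` the whole connection avoids `A`: this is the definition.
`Cl_finite`: `Cl ω F ⊆ F ∪ VV ω` (`Conn_mem_VV`).
`Cl_local`: `⊇`: `Conn ω f y`: induction with the claim `Conn ω' f y` (all intermediate vertices are in `Cl ω F`, so the edges are in `ω'`).  `⊆`: `Conn ω' f y`: induction with the claim `Conn ω f y`: the last vertex `a` is in `Cl ω F`,
so `s(a, b) ∈ ω'` implies `s(a, b) ∈ ω`.
`AllConn_iff_Cl`: with `f0 ∈ F`: unfold.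
`first_exit_off`: `x ∈ X`, `y ∉ X`: the LAST exit: induction with the claim `z ∈ X ∨ ∃ t ∈ X, ∃ t' ∉ X, s(t, t') ∈ ω ∧ Conn (off ω X) t' z`: step `z → w`: `w ∈ X`: left. `w ∉ X`, `z ∈ X`: `t = z`, `t' = w`. Both not in `X`: the edge `s(z, w)` is in `off ω X`.
`stay_or_exit`: `Conn_exit_edge` if `y ∉ X`; if `y ∈ X`: induction with the claim `Conn (inside) x z ∧ z ∈ X ∨ exit`.
-/

set_option autoImplicit false

noncomputable section

open Finset
open scoped Classical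

namespace IPC.T

variable {V : Type} [DecidableEq V]

theorem off_subset (ω : Finset (Sym2 V)) (A : Set V) : off ω A ⊆ ω := by
  unfold off
  exact Finset.filter_subset _ _

private theorem Off_mem {ω : Finset (Sym2 V)} {A : Set V} {e : Sym2 V} :
    e ∈ off ω A ↔ e ∈ ω ∧ ∀ a ∈ e, a ∉ A := by
  unfold off
  exact Finset.mem_filter

theorem mem_off {ω : Finset (Sym2 V)} {A : Set V} {a b : V} :
    s(a, b) ∈ off ω A ↔ s(a, b) ∈ ω ∧ a ∉ A ∧ b ∉ A := by
  rw [Off_mem]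
  constructor
  · rintro ⟨h1, h2⟩
    exact ⟨h1, h2 a (Sym2.mem_mk_left a b), h2 b (Sym2.mem_mk_right a b)⟩
  · rintro ⟨h1, h2, h3⟩
    refine ⟨h1, fun c hc => ?_⟩
    rcases Sym2.mem_iff.1 hc with rfl | rfl
    · exact h2
    · exact h3

theorem off_mono {ω ω' : Finset (Sym2 V)} (h : ω ⊆ ω') {A A' : Set V} (hA : A' ⊆ A) :
    off ω A ⊆ off ω' A' := by
  intro e he
  rw [Off_mem] at he ⊢
  exact ⟨h he.1, fun a ha ha' => he.2 a ha (hA ha')⟩

theorem off_empty (ω : Finset (Sym2 V)) : off ω ∅ = ω := by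
  ext e
  rw [Off_mem]
  exact ⟨fun h => h.1, fun h => ⟨h, fun a _ ha => ha⟩⟩

theorem off_inter (ω E : Finset (Sym2 V)) (A : Set V) : off (ω ∩ E) A = off ω A ∩ off E A := by
  ext e
  rw [Finset.mem_inter, Off_mem, Off_mem, Off_mem, Finset.mem_inter]
  exact ⟨fun h => ⟨⟨h.1.1, h.2⟩, h.1.2, h.2⟩, fun h => ⟨⟨h.1.1, h.2.1⟩, h.1.2⟩⟩

/-- a connection off `A` never meets `A` -/
theorem ConnOff_notMem {ω : Finset (Sym2 V)} {A : Set V} {x y : V} (h : ConnOff ω A x y) :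
    x ∉ A ∧ y ∉ A := by
  obtain ⟨h1, h2⟩ := h
  refine ⟨h1, ?_⟩
  unfold Conn at h2
  induction h2 with
  | refl => exact h1
  | tail _ hbc _ => exact (mem_off.1 hbc).2.2

theorem ConnOff_symm {ω : Finset (Sym2 V)} {A : Set V} {x y : V} (h : ConnOff ω A x y) :
    ConnOff ω A y x := ⟨(ConnOff_notMem h).2, Conn_symm h.2⟩

theorem ConnOff_conn {ω : Finset (Sym2 V)} {A : Set V} {x y : V} (h : ConnOff ω A x y) :
    Conn ω x y := Conn_mono (off_subset ω A) h.2

theorem ConnOff_mono {ω ω' : Finset (Sym2 V)} (hs : ω ⊆ ω') {A A' : Set V} (hA : A' ⊆ A) {x y : V}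
    (h : ConnOff ω A x y) : ConnOff ω' A' x y :=
  ⟨fun hx => h.1 (hA hx), Conn_mono (off_mono hs hA) h.2⟩

theorem ConnOff_inc (A : Set V) (x y : V) : Inc (fun ω : Finset (Sym2 V) => ConnOff ω A x y) :=
  fun _ _ h hx => ConnOff_mono h (Set.Subset.refl A) hx

theorem AllConn_inc (F : Finset V) (y : V) : Inc (fun ω : Finset (Sym2 V) => AllConn ω F y) :=
  fun _ _ h hx f hf => Conn_mono h (hx f hf)

/-- last exit: if `x ∈ X` and `y ∉ X` -/
theorem last_exit_off {ω : Finset (Sym2 V)} {X : Set V} {x y : V} (hx : x ∈ X) (hy : y ∉ X)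
    (h : Conn ω x y) : ∃ t ∈ X, ∃ t', t' ∉ X ∧ s(t, t') ∈ ω ∧ Conn (off ω X) t' y := by
  have key : ∀ w, Conn ω x w → w ∈ X ∨
      ∃ t ∈ X, ∃ t', t' ∉ X ∧ s(t, t') ∈ ω ∧ Conn (off ω X) t' w := by
    intro w hw
    unfold Conn at hw
    induction hw with
    | refl => exact Or.inl hx
    | @tail z w _ hzw ih =>
      by_cases hw : w ∈ X
      · exact Or.inl hw
      · right
        by_cases hz : z ∈ X
        · exact ⟨z, hz, w, hw, hzw, Conn_refl _ _⟩
        · rcases ih with h1 | ⟨t, ht, t', ht', he, hc⟩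
          · exact absurd h1 hz
          · exact ⟨t, ht, t', ht', he, Relation.ReflTransGen.tail hc (mem_off.2 ⟨hzw, hz, hw⟩)⟩
  rcases key y h with h1 | h1
  · exact absurd h1 hy
  · exact h1

theorem stay_or_exit {ω : Finset (Sym2 V)} {X : Set V} {x y : V} (hx : x ∈ X) (h : Conn ω x y) :
    (y ∈ X ∧ Conn (ω.filter fun e => ∀ a ∈ e, a ∈ X) x y) ∨ ∃ s ∈ X, ∃ t, t ∉ X ∧ s(s, t) ∈ ω ∧
      Conn (ω.filter fun e => ∀ a ∈ e, a ∈ X) x s := by
  unfold Conn at h
  induction h with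
  | refl => exact Or.inl ⟨hx, Conn_refl _ _⟩
  | @tail z w _ hzw ih =>
    rcases ih with ⟨hz, hc⟩ | h1
    · by_cases hw : w ∈ X
      · left
        refine ⟨hw, Relation.ReflTransGen.tail hc ?_⟩
        rw [Finset.mem_filter]
        refine ⟨hzw, fun a ha => ?_⟩
        rcases Sym2.mem_iff.1 ha with rfl | rfl
        · exact hz
        · exact hw
      · right
        exact ⟨z, hz, w, hw, hzw, hc⟩
    · exact Or.inr h1

theorem subset_Cl (ω : Finset (Sym2 V)) (F : Finset V) : (F : Set V) ⊆ Cl ω F :=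
  fun f hf => ⟨f, hf, Conn_refl _ _⟩

theorem Cl_closed {ω : Finset (Sym2 V)} {F : Finset V} {a b : V} (ha : a ∈ Cl ω F)
    (h : Conn ω a b) : b ∈ Cl ω F := by
  obtain ⟨f, hf, h1⟩ := ha
  exact ⟨f, hf, Conn_trans h1 h⟩

theorem Cl_mono {ω ω' : Finset (Sym2 V)} (h : ω ⊆ ω') {F F' : Finset V} (hF : F ⊆ F') :
    Cl ω F ⊆ Cl ω' F' := by
  rintro y ⟨f, hf, h1⟩
  exact ⟨f, hF hf, Conn_mono h h1⟩

theorem Cl_finite (ω : Finset (Sym2 V)) (F : Finset V) : (Cl ω F).Finite := by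
  refine Set.Finite.subset (Finset.finite_toSet (F ∪ VV ω)) ?_
  rintro y ⟨f, hf, h1⟩
  rw [Finset.mem_coe, Finset.mem_union]
  by_cases hfy : f = y
  · left
    rw [← hfy]
    exact hf
  · right
    exact (Conn_mem_VV h1 hfy).2

/-- the cluster is determined by the edges touching it -/
theorem Cl_local {ω ω' : Finset (Sym2 V)} {F : Finset V}
    (h : ∀ a b, a ∈ Cl ω F → (s(a, b) ∈ ω ↔ s(a, b) ∈ ω')) : Cl ω' F = Cl ω F := by
  ext y
  constructor
  · rintro ⟨f, hf, h1⟩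
    refine ⟨f, hf, ?_⟩
    unfold Conn at h1
    induction h1 with
    | refl => exact Conn_refl _ _
    | tail _ hbc ih => exact Relation.ReflTransGen.tail ih ((h _ _ ⟨f, hf, ih⟩).2 hbc)
  · rintro ⟨f, hf, h1⟩
    refine ⟨f, hf, ?_⟩
    unfold Conn at h1
    induction h1 with
    | refl => exact Conn_refl _ _
    | tail hab hbc ih => exact Relation.ReflTransGen.tail ih ((h _ _ ⟨f, hf, hab⟩).1 hbc)

/-- along a trail: the first exit from `S` -/
theorem Trail_exit {ω : Finset (Sym2 V)} {x v : V} (h : Trail ω x v) {S : Set V} (hx : x ∈ S)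
    (hv : v ∉ S) : ∃ y ∈ S, ∃ z, z ∉ S ∧ ∃ ω₁ ω₂, s(y, z) ∈ ω ∧ ω₁ ⊆ ω ∧ ω₂ ⊆ ω ∧ Disjoint ω₁ ω₂ ∧
      s(y, z) ∉ ω₁ ∧ s(y, z) ∉ ω₂ ∧ (∀ e ∈ ω₁, ∀ a ∈ e, a ∈ S) ∧ Trail ω₁ x y ∧ Trail ω₂ z v := by
  induction h with
  | nil x => exact absurd hx hv
  | cons x y v ω hn t ih =>
    by_cases hy : y ∈ S
    · obtain ⟨y1, hy1, z, hz, ω₁, ω₂, h1, h2, h3, h4, h5, h6, h7, h8, h9⟩ := ih hy hv
      have hne : s(y1, z) ≠ s(x, y) := by
        intro h
        rw [h] at h1
        exact hn h1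
      refine ⟨y1, hy1, z, hz, insert s(x, y) ω₁, ω₂, Finset.mem_insert_of_mem h1,
        Finset.insert_subset_insert _ h2, h3.trans (Finset.subset_insert _ _), ?_, ?_, h6, ?_, ?_, h9⟩
      · rw [Finset.disjoint_insert_left]
        exact ⟨fun h => hn (h3 h), h4⟩
      · rw [Finset.mem_insert]
        rintro (h | h)
        · exact hne h
        · exact h5 h
      · intro e he a ha
        rcases Finset.mem_insert.1 he with rfl | he'
        · rcases Sym2.mem_iff.1 ha with rfl | rfl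
          · exact hx
          · exact hy
        · exact h7 e he' a ha
      · exact Trail.cons x y y1 ω₁ (fun h => hn (h2 h)) h8
    · refine ⟨x, hx, y, hy, ∅, ω, Finset.mem_insert_self _ _, Finset.empty_subset _,
        Finset.subset_insert _ _, Finset.disjoint_empty_left _, Finset.notMem_empty _, hn, ?_,
        Trail.nil x, t⟩
      intro e he
      exact absurd he (Finset.notMem_empty e)

end IPC.T
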